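import Mathlib

/-!
Cutting planes refutations of 3-CNF formulas: definitions (MP_86d903_lc).
-/

open Finset

namespace MP86d903

/-- A clause with three literals on three distinct variables among `x 0, …, x (n - 1)`: the set
of its variables together with the subset of the variables that are negated in it. There are
`8 * C(n, 3)` of them. -/
abbrev Clause (n : ℕ) : Type :=
  {p : Finset (Fin n) × Finset (Fin n) // p.1.card = 3 ∧ p.2 ⊆ p.1}

/-- The inequality `∑ i, coef i * x i ≥ rhs`. -/
structure Ineq (n : ℕ) where
  coef : Fin n → ℤ
  rhs : ℤ

/-- The translation of a clause: `x i` is added up over its positive and `1 - x i` over its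
negative literals, and the sum has to be at least one. -/
def clauseIneq {n : ℕ} (C : Clause n) : Ineq n where
  coef i := if i ∈ C.1.2 then -1 else if i ∈ C.1.1 then 1 else 0
  rhs := 1 - C.1.2.card

/-- The rules by which a line of a derivation with `s` lines from `m` clauses is derived: the
`k`-th clause, the axioms `x v ≥ 0` and `-x v ≥ -1`, the combination of the lines `j`, `k` with
nonnegative integer factors `α`, `β`, and the division of line `j` by `c`. -/
inductive Rule (n m s : ℕ)
  | clause (k : Fin m)
  | lower (v : Fin n)
  | upper (v : Fin n)
  | comb (j k : Fin s) (α β : ℕ)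
  | div (j : Fin s) (c : ℕ)

/-- Line `i` is derived from earlier lines by the given rule. -/
def Justified {n m s : ℕ} (F : Fin m → Clause n) (line : Fin s → Ineq n) (i : Fin s) :
    Rule n m s → Prop
  | .clause k => line i = clauseIneq (F k)
  | .lower v => line i = ⟨Pi.single v 1, 0⟩
  | .upper v => line i = ⟨Pi.single v (-1), -1⟩
  | .comb j k α β => j < i ∧ k < i ∧
      line i = ⟨fun v => α * (line j).coef v + β * (line k).coef v,
        α * (line j).rhs + β * (line k).rhs⟩
  | .div j c => j < i ∧ 1 ≤ c ∧ (∀ v, (line j).coef v = c * (line i).coef v) ∧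
      (line i).rhs = ⌈((line j).rhs : ℚ) / c⌉

/-- A cutting planes refutation of the formula `F`. -/
structure Refutation {n m : ℕ} (F : Fin m → Clause n) where
  size : ℕ
  line : Fin size → Ineq n
  rule : Fin size → Rule n m size
  justified : ∀ i, Justified F line i (rule i)
  falsum : ∃ i, line i = ⟨fun _ => 0, 1⟩

/-- Line `j` is a premise of the rule. -/
def Rule.HasPremise {n m s : ℕ} (j : Fin s) : Rule n m s → Prop
  | .comb k l _ _ => j = k ∨ j = l
  | .div k _ => j = k
  | _ => False

/-- A path in a refutation: each line is followed by one of its premises. -/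
def Refutation.IsPath {n m : ℕ} {F : Fin m → Clause n} (π : Refutation F)
    (p : List (Fin π.size)) : Prop :=
  p.IsChain (fun i j => (π.rule i).HasPremise j)

/-- Line `i` is a critical division step: it has at least `ε n` nonzero coefficients, and the
step cuts off a half-integral point `y / 2` of the cube with at most `η n` integral coordinates,
that is, its premise holds at this point and its conclusion does not. -/
def Refutation.IsCritical {n m : ℕ} {F : Fin m → Clause n} (π : Refutation F) (ε η : ℝ)
    (i : Fin π.size) : Prop :=
  ε * n ≤ {v | (π.line i).coef v ≠ 0}.ncard ∧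
  ∃ j c, π.rule i = .div j c ∧
    ∃ y : Fin n → ℤ, (∀ v, y v = 0 ∨ y v = 1 ∨ y v = 2) ∧ {v | y v ≠ 1}.ncard ≤ η * n ∧
      2 * (π.line j).rhs ≤ ∑ v, (π.line j).coef v * y v ∧
      ∑ v, (π.line i).coef v * y v < 2 * (π.line i).rhs

/-- The degree of falsity of an inequality: its right hand side minus the least value of its
left hand side at the points of the cube. -/
def falsity {n : ℕ} (L : Ineq n) : ℤ := L.rhs - ∑ v, min (L.coef v) 0

/-- An inequality is light if at least `ε n` of its coefficients have an absolute value of at
least the degree of falsity divided by `δ n`. -/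
def IsLight {n : ℕ} (ε δ : ℝ) (L : Ineq n) : Prop :=
  ε * n ≤ {v | (falsity L : ℝ) ≤ δ * n * |(L.coef v : ℝ)|}.ncard

end MP86d903
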