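import Pool.Agent.Helper80.CP.Kill
import Pool.Agent.Helper80.CP.Defs

/-!
The deterministic part: refutations of a formula with an expanding hypergraph
(MP_86d903_lc).
-/

open Finset

namespace MP86d903

variable {n m : ℕ}

/-- The variables of the clauses. -/
def vsF (F : Fin m → Clause n) : Fin m → Finset (Fin n) := fun c => (F c).1.1

/-- The negated variables of the clauses. -/
def ngF (F : Fin m → Clause n) : Fin m → Finset (Fin n) := fun c => (F c).1.2

theorem vsF_card (F : Fin m → Clause n) (c : Fin m) : (vsF F c).card = 3 := (F c).2.1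

theorem ngF_subset (F : Fin m → Clause n) (c : Fin m) : ngF F c ⊆ vsF F c := (F c).2.2

/-- The heavy critical lines on a list of lines. -/
def hvy {F : Fin m → Clause n} (π : Refutation F) (ε δ η : ℝ) (p : List (Fin π.size)) :
    Set (Fin π.size) :=
  {i | i ∈ p ∧ π.IsCritical ε η i ∧ ¬ IsLight ε δ (π.line i)}

theorem falsity_eq (L : Ineq n) : falsity L = L.rhs + ∑ v, max (-(L.coef v)) 0 := by
  unfold falsity
  rw [sub_eq_add_neg, ← sum_neg_distrib]
  congr 1
  refine sum_congr rfl (fun v _ => ?_)
  rcases le_total (L.coef v) 0 with h | h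
  · rw [min_eq_left h, max_eq_left (by omega)]
  · rw [min_eq_right h, max_eq_right (by omega)]
    rfl

/-- A light inequality with many hits holds at all points of the family. -/
theorem holds_light {vs ng : Fin m → Finset (Fin n)} {q t h : ℕ} {T₀ : Finset (Fin n)}
    {ρ₀ : Fin n → Bool} {δ : ℝ} (hδ : 0 < δ * n) (hh : δ * n ≤ h) (L : Ineq n)
    (Z : Finset (Fin n)) (hZ : ∀ v ∈ Z, (falsity L : ℝ) ≤ δ * n * |(L.coef v : ℝ)|)
    (hhit : h ≤ hits Z (fun v => decide (0 < L.coef v)) (Cl vs q T₀) ρ₀) :
    Holds vs ng q T₀ ρ₀ t L.coef L.rhs := by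
  classical
  set H := (Z ∩ Cl vs q T₀).filter (fun v => ρ₀ v = decide (0 < L.coef v)) with hH
  have hcard : h ≤ H.card := hhit
  refine holds_killed H ?_ ?_ ?_
  · intro v hv
    exact (mem_inter.mp (mem_filter.mp hv).1).2
  · intro v hv
    exact (mem_filter.mp hv).2
  · rw [← falsity_eq]
    by_cases h0 : falsity L ≤ 0
    · exact h0.trans (Finset.sum_nonneg (fun v _ => abs_nonneg _))
    · rw [not_le] at h0
      have h0' : (0 : ℝ) < falsity L := by exact_mod_cast h0
      have h1 : (H.card : ℝ) * (falsity L : ℝ) ≤ δ * n * ∑ v ∈ H, |(L.coef v : ℝ)| := by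
        rw [Finset.mul_sum, ← nsmul_eq_mul]
        refine Finset.card_nsmul_le_sum _ _ _ (fun v hv => ?_)
        exact hZ v (mem_inter.mp (mem_filter.mp hv).1).1
      have h2 : δ * n ≤ (H.card : ℝ) := hh.trans (by exact_mod_cast hcard)
      have h3 : δ * n * (falsity L : ℝ) ≤ δ * n * ∑ v ∈ H, |(L.coef v : ℝ)| :=
        (mul_le_mul_of_nonneg_right h2 h0'.le).trans h1
      have h4 := le_of_mul_le_mul_left h3 hδ
      have h5 : ((falsity L : ℤ) : ℝ) ≤ ((∑ v ∈ H, |L.coef v| : ℤ) : ℝ) := by
        push_cast
        exact h4
      exact_mod_cast h5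

theorem det (F : Fin m → Clause n) {R M w h t₀ s : ℕ} {ε δ η : ℝ}
    (hE : Exp (vsF F) R) (hR : 34 * M ≤ R) (hM : t₀ + 2 * w + s + 1 ≤ M)
    (hK : (37 * M : ℝ) ≤ η * n) (hw1 : ε * n ≤ w) (hw2 : ∀ k : ℕ, ε * n ≤ k → w ≤ k)
    (hδ : 0 < δ * n) (hh : δ * n ≤ h) (h74 : 74 * t₀ ≤ w) (hwn : w ≤ n) (hn : 0 < n)
    (hsmall : (2 : ℝ) ^ (δ * n) * (1 - w / (8 * n)) ^ t₀ * 2 ^ h < 2)
    (π : Refutation F) :
    (2 : ℝ) ^ (δ * n) < {i | π.IsCritical ε η i ∧ IsLight ε δ (π.line i)}.ncard ∨
      ∃ p, π.IsPath p ∧ s + 1 ≤ (hvy π ε δ η p).ncard := by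
  classical
  rw [or_iff_not_imp_left]
  intro hlight
  rw [not_lt] at hlight
  by_contra hpath
  push Not at hpath
  have hM0 : 1 ≤ M := by omega
  set q := 22 * M with hq
  have hC : ∀ T : Finset (Fin n), T.card ≤ M → (Cl (vsF F) q T).card ≤ 37 * T.card := by
    intro T hT
    exact card_Cl_le hE (fun c => (vsF_card F c).le) T (by omega)
  have hI : ∀ T : Finset (Fin n), T.card ≤ M →
      (inside (vsF F) (Cl (vsF F) q T)).card ≤ q := by
    intro T hT
    have h1 := hC T hT
    have h2 := card_inside_le hE (Cl (vsF F) q T) (by omega)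
    omega
  set 𝓔 : Finset (Fin π.size) :=
    univ.filter (fun i => π.IsCritical ε η i ∧ IsLight ε δ (π.line i)) with h𝓔
  have h𝓔card : (𝓔.card : ℝ) ≤ (2 : ℝ) ^ (δ * n) := by
    rw [← Set.ncard_coe_finset]
    refine le_trans (le_of_eq ?_) hlight
    congr 2
    ext i
    simp [h𝓔]
  set Z : Fin π.size → Finset (Fin n) := fun i =>
    univ.filter (fun v => (falsity (π.line i) : ℝ) ≤ δ * n * |((π.line i).coef v : ℝ)|) with hZ
  have hZcard : ∀ i ∈ 𝓔, w ≤ (Z i).card := by
    intro i hi
    apply hw2
    have h1 := (mem_filter.mp hi).2.2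
    unfold IsLight at h1
    rw [← Set.ncard_coe_finset]
    refine h1.trans (le_of_eq ?_)
    congr 2
    ext v
    simp [hZ]
  have hw8 : 0 ≤ 1 - (w : ℝ) / (8 * n) := by
    have h1 : (w : ℝ) ≤ n := by exact_mod_cast hwn
    have h2 : (0 : ℝ) < n := by exact_mod_cast hn
    rw [sub_nonneg, div_le_one (by positivity)]
    linarith
  obtain ⟨T₀, ρ₀, hT₀, hρ₀, hhits⟩ := exists_root (ng := ngF F) (κ := Fin π.size)
    (fun c => vsF_card F c) hI hC 𝓔 Z
    (fun i v => decide (0 < (π.line i).coef v)) (w := w) (h := h) (t := t₀)
    hZcard (by rw [Fintype.card_fin]; exact hwn) (by rw [Fintype.card_fin]; exact hn)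
    (by omega) h74 (by
      rw [Fintype.card_fin]
      refine lt_of_le_of_lt ?_ hsmall
      refine mul_le_mul_of_nonneg_right ?_ (by positivity)
      exact mul_le_mul_of_nonneg_right h𝓔card (pow_nonneg hw8 _))
  -- the main claim
  have main : ∀ (N : ℕ) (i : Fin π.size), (i : ℕ) = N → ∀ k ≤ s,
      (∀ p, π.IsPath (i :: p) → (hvy π ε δ η (i :: p)).ncard ≤ k) →
      Holds (vsF F) (ngF F) q T₀ ρ₀ (w + (s - k)) (π.line i).coef (π.line i).rhs := by
    intro N
    induction N using Nat.strong_induction_on with
    | _ N ih =>
    intro i hiN k hk hp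
    have ih' : ∀ j : Fin π.size, j < i → ∀ k ≤ s,
        (∀ p, π.IsPath (j :: p) → (hvy π ε δ η (j :: p)).ncard ≤ k) →
        Holds (vsF F) (ngF F) q T₀ ρ₀ (w + (s - k)) (π.line j).coef (π.line j).rhs := by
      intro j hj
      exact ih j (by rw [← hiN]; exact hj) j rfl
    have hsub : ∀ j p, π.IsPath (i :: j :: p) →
        (hvy π ε δ η (j :: p)).ncard ≤ (hvy π ε δ η (i :: j :: p)).ncard := by
      intro j p _
      refine Set.ncard_le_ncard ?_ (Set.toFinite _)
      intro x hx
      exact ⟨List.mem_cons_of_mem _ hx.1, hx.2⟩
    have hjust := π.justified i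
    rcases hr : π.rule i with c | v | v | ⟨j, l, α, β⟩ | ⟨j, c⟩
    · rw [hr] at hjust
      have h1 : π.line i = clauseIneq (F c) := hjust
      rw [h1]
      refine holds_clause (by omega) (ngF_subset F) c _ _ (fun v => rfl) rfl
    · rw [hr] at hjust
      have h1 : π.line i = ⟨Pi.single v 1, 0⟩ := hjust
      rw [h1]
      exact holds_lower v
    · rw [hr] at hjust
      have h1 : π.line i = ⟨Pi.single v (-1), -1⟩ := hjust
      rw [h1]
      exact holds_upper v
    · rw [hr] at hjust
      obtain ⟨hj, hl, h1⟩ : j < i ∧ l < i ∧ π.line i = ⟨fun v =>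
        α * (π.line j).coef v + β * (π.line l).coef v,
        α * (π.line j).rhs + β * (π.line l).rhs⟩ := hjust
      have hpj : ∀ p, π.IsPath (j :: p) → (hvy π ε δ η (j :: p)).ncard ≤ k := by
        intro p hpp
        have h2 : π.IsPath (i :: j :: p) := by
          refine List.isChain_cons_cons.mpr ⟨?_, hpp⟩
          rw [hr]
          exact Or.inl rfl
        exact (hsub j p h2).trans (hp _ h2)
      have hpl : ∀ p, π.IsPath (l :: p) → (hvy π ε δ η (l :: p)).ncard ≤ k := by
        intro p hpp
        have h2 : π.IsPath (i :: l :: p) := by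
          refine List.isChain_cons_cons.mpr ⟨?_, hpp⟩
          rw [hr]
          exact Or.inr rfl
        exact (hsub l p h2).trans (hp _ h2)
      rw [h1]
      exact holds_comb (α := α) (β := β) (fun v => rfl) rfl (ih' j hj k hk hpj)
        (ih' l hl k hk hpl)
    · rw [hr] at hjust
      obtain ⟨hj, hc, hcoef, hrhs⟩ : j < i ∧ 1 ≤ c ∧
        (∀ v, (π.line j).coef v = c * (π.line i).coef v) ∧
        (π.line i).rhs = ⌈((π.line j).rhs : ℚ) / c⌉ := hjust
      have hstep : ∀ p, π.IsPath (j :: p) → π.IsPath (i :: j :: p) := by
        intro p hpp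
        refine List.isChain_cons_cons.mpr ⟨?_, hpp⟩
        rw [hr]
        rfl
      by_cases hcrit : π.IsCritical ε η i
      · by_cases hlt : IsLight ε δ (π.line i)
        · have hi𝓔 : i ∈ 𝓔 := mem_filter.mpr ⟨mem_univ _, hcrit, hlt⟩
          exact holds_light hδ hh (π.line i) (Z i)
            (fun v hv => (mem_filter.mp hv).2) (hhits i hi𝓔)
        · -- a heavy critical step
          have hk1 : 1 ≤ k := by
            have h1 := hp [] (List.isChain_singleton i)
            refine le_trans ?_ h1
            rw [Nat.one_le_iff_ne_zero, Ne, Set.ncard_eq_zero (Set.toFinite _)]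
            intro h2
            have : i ∈ hvy π ε δ η [i] := ⟨List.mem_singleton_self i, hcrit, hlt⟩
            rw [h2] at this
            exact this
          have hpj : ∀ p, π.IsPath (j :: p) → (hvy π ε δ η (j :: p)).ncard ≤ k - 1 := by
            intro p hpp
            have h1 := hp _ (hstep p hpp)
            have hnot : i ∉ hvy π ε δ η (j :: p) := by
              intro hmem
              have hmem' := hmem.1
              -- all lines on the path are at most `j`
              have hle : ∀ (p : List (Fin π.size)) (j : Fin π.size), π.IsPath (j :: p) →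
                  ∀ x ∈ (j :: p), x ≤ j := by
                intro p
                induction p with
                | nil =>
                  intro j _ x hx
                  rw [List.mem_singleton] at hx
                  rw [hx]
                | cons l p ihp =>
                  intro j hjp x hx
                  obtain ⟨h3, h4⟩ := List.isChain_cons_cons.mp hjp
                  rcases List.mem_cons.mp hx with rfl | hx
                  · exact le_rfl
                  · refine (ihp l h4 x hx).trans ?_
                    have h5 := π.justified j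
                    rcases hr' : π.rule j with c | v | v | ⟨j', l', α, β⟩ | ⟨j', c⟩
                    · rw [hr'] at h3
                      exact h3.elim
                    · rw [hr'] at h3
                      exact h3.elim
                    · rw [hr'] at h3
                      exact h3.elim
                    · rw [hr'] at h3 h5
                      rcases h3 with rfl | rfl
                      · exact h5.1.le
                      · exact h5.2.1.le
                    · rw [hr'] at h3 h5
                      rw [show l = j' from h3]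
                      exact h5.1.le
              exact absurd (hle p j hpp i hmem') (not_le.mpr hj)
            have h2 : hvy π ε δ η (i :: j :: p) = insert i (hvy π ε δ η (j :: p)) := by
              ext x
              simp only [hvy, Set.mem_setOf_eq, Set.mem_insert_iff, List.mem_cons]
              constructor
              · rintro ⟨h3 | h3, h4⟩
                · exact Or.inl h3
                · exact Or.inr ⟨h3, h4⟩
              · rintro (h3 | ⟨h3, h4⟩)
                · rw [h3]
                  exact ⟨Or.inl rfl, hcrit, hlt⟩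
                · exact ⟨Or.inr h3, h4⟩
            rw [h2, Set.ncard_insert_of_notMem hnot (Set.toFinite _)] at h1
            omega
          have h1 := ih' j hj (k - 1) (by omega) hpj
          have h2 : w + (s - (k - 1)) = w + (s - k) + 1 := by omega
          rw [h2] at h1
          exact holds_div (M := M) (fun c => vsF_card F c) (by omega) hI hc hcoef hrhs
            (by omega) (h1.mono (by omega)) (fun _ => h1)
      · have hpj : ∀ p, π.IsPath (j :: p) → (hvy π ε δ η (j :: p)).ncard ≤ k := by
          intro p hpp
          exact (hsub j p (hstep p hpp)).trans (hp _ (hstep p hpp))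
        have h1 := ih' j hj k hk hpj
        by_cases hwide : ε * n ≤ ({v | (π.line i).coef v ≠ 0}.ncard : ℝ)
        · intro A ρ hF
          by_contra hcon
          rw [not_le] at hcon
          apply hcrit
          refine ⟨hwide, j, c, hr, pt A ρ, ?_, ?_, h1 A ρ hF, hcon⟩
          · intro v
            unfold pt
            split_ifs <;> simp
          · obtain ⟨T, hT, hA, -, -⟩ := hF
            have h3 : {v | pt A ρ v ≠ 1}.ncard ≤ 37 * M := by
              have h4 : {v | pt A ρ v ≠ 1} ⊆ (A : Set (Fin n)) := by
                intro v hv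
                by_contra hvA
                exact hv (by
                  unfold pt
                  exact if_neg (fun hva => hvA hva))
              refine (Set.ncard_le_ncard h4 (Set.toFinite _)).trans ?_
              rw [Set.ncard_coe_finset, hA]
              have h5 := card_union_le T₀ T
              refine (hC _ (by omega)).trans ?_
              omega
            refine le_trans ?_ hK
            exact_mod_cast h3
        · rw [not_le] at hwide
          refine holds_narrow (M := M) (t := w) (fun c => (vsF_card F c).le) hI hc hcoef hrhs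
            ?_ (by omega) (h1.mono (by omega))
          have h3 : ({v | (π.line i).coef v ≠ 0}.ncard : ℝ) ≤ w := hwide.le.trans hw1
          have h4 : {v | (π.line i).coef v ≠ 0}.ncard ≤ w := by exact_mod_cast h3
          rw [← Set.ncard_coe_finset]
          refine le_trans (le_of_eq ?_) h4
          congr 1
          ext v
          simp
  obtain ⟨i, hi⟩ := π.falsum
  have h1 := main i i rfl s le_rfl (fun p hpp => by
    have := hpath _ hpp
    omega)
  have h2 := h1 (Cl (vsF F) q (T₀ ∪ ∅)) ρ₀ ⟨∅, by simp, rfl, by rwa [union_empty],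
    fun _ _ => rfl⟩
  rw [hi] at h2
  simp at h2

end MP86d903
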