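import Pool.Agent.Helper80.CP.Det

/-!
Random 3-CNF formulas have expanding hypergraphs (MP_86d903_lc).
-/

open Finset

namespace MP86d903

variable {n m : ℕ}

theorem card_clause_sub (A : Finset (Fin n)) :
    (univ.filter (fun C : Clause n => C.1.1 ⊆ A)).card = 8 * A.card.choose 3 := by
  classical
  have h1 : (univ.filter (fun C : Clause n => C.1.1 ⊆ A)).card =
      ((A.powersetCard 3).sigma (fun t => t.powerset)).card := by
    refine Finset.card_bij (fun C _ => ⟨C.1.1, C.1.2⟩) ?_ ?_ ?_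
    · intro C hC
      have h2 := (mem_filter.mp hC).2
      rw [mem_sigma, mem_powersetCard, mem_powerset]
      exact ⟨⟨h2, C.2.1⟩, C.2.2⟩
    · intro C _ C' _ h
      have h2 : C.1.1 = C'.1.1 := congrArg Sigma.fst h
      have h3 : C.1.2 = C'.1.2 := by
        have := congrArg Sigma.snd h
        exact this
      exact Subtype.ext (Prod.ext h2 h3)
    · rintro ⟨t, u⟩ h
      rw [mem_sigma, mem_powersetCard, mem_powerset] at h
      exact ⟨⟨(t, u), h.1.2, h.2⟩, mem_filter.mpr ⟨mem_univ _, h.1.1⟩, rfl⟩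
  rw [h1, card_sigma]
  have h2 : ∀ t ∈ A.powersetCard 3, t.powerset.card = 8 := by
    intro t ht
    rw [card_powerset, (mem_powersetCard.mp ht).2]
    norm_num
  rw [sum_congr rfl h2, sum_const, card_powersetCard, smul_eq_mul, mul_comm]

theorem card_clause : Fintype.card (Clause n) = 8 * n.choose 3 := by
  have h := card_clause_sub (univ : Finset (Fin n))
  rw [card_univ, Fintype.card_fin] at h
  rw [← h, ← card_univ]
  congr 1
  ext C
  simp

theorem choose_three_le {v n : ℕ} (h : v ≤ n) : v.choose 3 * n ^ 3 ≤ v ^ 3 * n.choose 3 := by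
  have h1 : ∀ k : ℕ, 6 * k.choose 3 = k * (k - 1) * (k - 2) := by
    intro k
    have := Nat.descFactorial_eq_factorial_mul_choose k 3
    rw [show Nat.factorial 3 = 6 from rfl] at this
    rw [← this]
    simp only [Nat.descFactorial_succ, Nat.descFactorial_zero]
    ring_nf
    rw [Nat.sub_zero]
  rcases Nat.lt_or_ge v 2 with hv | hv
  · rw [Nat.choose_eq_zero_of_lt (by omega)]
    simp
  · have h2 : (v - 1) * n ≤ v * (n - 1) := by
      obtain ⟨a, rfl⟩ := Nat.exists_eq_add_of_le hv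
      obtain ⟨b, rfl⟩ := Nat.exists_eq_add_of_le h
      have e1 : 2 + a - 1 = a + 1 := by omega
      have e2 : 2 + a + b - 1 = a + 1 + b := by omega
      rw [e1, e2]
      nlinarith
    have h3 : (v - 2) * n ≤ v * (n - 2) := by
      obtain ⟨a, rfl⟩ := Nat.exists_eq_add_of_le hv
      obtain ⟨b, rfl⟩ := Nat.exists_eq_add_of_le h
      have e1 : 2 + a - 2 = a := by omega
      have e2 : 2 + a + b - 2 = a + b := by omega
      rw [e1, e2]
      nlinarith
    have h4 := Nat.mul_le_mul h2 h3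
    have h5 : 6 * (v.choose 3 * n ^ 3) ≤ 6 * (v ^ 3 * n.choose 3) := by
      calc 6 * (v.choose 3 * n ^ 3) = (6 * v.choose 3) * n ^ 3 := by ring
        _ = (v * n) * (((v - 1) * n) * ((v - 2) * n)) := by
          rw [h1]
          ring
        _ ≤ (v * n) * ((v * (n - 1)) * (v * (n - 2))) := Nat.mul_le_mul_left _ h4
        _ = v ^ 3 * (6 * n.choose 3) := by
          rw [h1]
          ring
        _ = 6 * (v ^ 3 * n.choose 3) := by ring
    omega

/-- The size of the smallest forbidden neighbourhoods. -/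
def vv (s : ℕ) : ℕ := (7 * s - 1) / 4

open Classical in
theorem card_bad_le (R : ℕ) (hR : 2 * R ≤ n) :
    (univ.filter (fun F : Fin m → Clause n => ¬ Exp (vsF F) R)).card ≤
      ∑ s ∈ Icc 1 R, m.choose s * n.choose (vv s) *
        ((8 * (vv s).choose 3) ^ s * (8 * n.choose 3) ^ (m - s)) := by
  have hcardF : ∀ (S : Finset (Fin m)) (A : Finset (Fin n)),
      (univ.filter (fun F : Fin m → Clause n => ∀ c ∈ S, vsF F c ⊆ A)).card =
        (8 * A.card.choose 3) ^ S.card * (8 * n.choose 3) ^ (m - S.card) := by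
    intro S A
    have h1 : univ.filter (fun F : Fin m → Clause n => ∀ c ∈ S, vsF F c ⊆ A) =
        Fintype.piFinset (fun c => if c ∈ S then
          univ.filter (fun C : Clause n => C.1.1 ⊆ A) else univ) := by
      ext F
      rw [mem_filter, Fintype.mem_piFinset]
      constructor
      · rintro ⟨-, h⟩ c
        by_cases hc : c ∈ S
        · rw [if_pos hc]
          exact mem_filter.mpr ⟨mem_univ _, h c hc⟩
        · rw [if_neg hc]
          exact mem_univ _
      · intro h
        refine ⟨mem_univ _, fun c hc => ?_⟩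
        have := h c
        rw [if_pos hc] at this
        exact (mem_filter.mp this).2
    rw [h1, Fintype.card_piFinset]
    have h2 : ∀ c : Fin m, (if c ∈ S then univ.filter (fun C : Clause n => C.1.1 ⊆ A)
        else (univ : Finset (Clause n))).card =
        if c ∈ S then 8 * A.card.choose 3 else 8 * n.choose 3 := by
      intro c
      split_ifs
      · exact card_clause_sub A
      · rw [card_univ, card_clause]
    rw [prod_congr rfl (fun c _ => h2 c), prod_ite, prod_const, prod_const]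
    congr 2
    · congr 1
      ext c
      simp
    · have : univ.filter (fun c => c ∉ S) = Sᶜ := by
        ext c
        simp
      rw [this, card_compl, Fintype.card_fin]
  have hsub : univ.filter (fun F : Fin m → Clause n => ¬ Exp (vsF F) R) ⊆
      (Icc 1 R).biUnion (fun s => (powersetCard s (univ : Finset (Fin m))).biUnion (fun S =>
        (powersetCard (vv s) (univ : Finset (Fin n))).biUnion (fun A =>
          univ.filter (fun F : Fin m → Clause n => ∀ c ∈ S, vsF F c ⊆ A)))) := by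
    intro F hF
    have h1 := (mem_filter.mp hF).2
    unfold Exp at h1
    push Not at h1
    obtain ⟨S, hSR, hS⟩ := h1
    have hS1 : 1 ≤ S.card := by
      by_contra hcon
      have : S.card = 0 := by omega
      rw [this] at hS
      simp at hS
    obtain ⟨A, hA1, -, hA2⟩ := Finset.exists_subsuperset_card_eq
      (s := S.biUnion (vsF F)) (t := univ) (n := vv S.card) (subset_univ _)
      (by unfold vv; omega) (by rw [card_univ, Fintype.card_fin]; unfold vv; omega)
    rw [mem_biUnion]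
    refine ⟨S.card, mem_Icc.mpr ⟨hS1, hSR⟩, ?_⟩
    rw [mem_biUnion]
    refine ⟨S, mem_powersetCard.mpr ⟨subset_univ _, rfl⟩, ?_⟩
    rw [mem_biUnion]
    refine ⟨A, mem_powersetCard.mpr ⟨subset_univ _, hA2⟩, ?_⟩
    exact mem_filter.mpr ⟨mem_univ _, fun c hc => (subset_biUnion_of_mem (vsF F) hc).trans hA1⟩
  refine (card_le_card hsub).trans (card_biUnion_le.trans (sum_le_sum (fun s _ => ?_)))
  refine card_biUnion_le.trans ?_
  have h1 : ∀ S ∈ powersetCard s (univ : Finset (Fin m)),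
      ((powersetCard (vv s) (univ : Finset (Fin n))).biUnion (fun A =>
          univ.filter (fun F : Fin m → Clause n => ∀ c ∈ S, vsF F c ⊆ A))).card ≤
        n.choose (vv s) * ((8 * (vv s).choose 3) ^ s * (8 * n.choose 3) ^ (m - s)) := by
    intro S hS
    refine card_biUnion_le.trans ?_
    have h2 : ∀ A ∈ powersetCard (vv s) (univ : Finset (Fin n)),
        (univ.filter (fun F : Fin m → Clause n => ∀ c ∈ S, vsF F c ⊆ A)).card =
          (8 * (vv s).choose 3) ^ s * (8 * n.choose 3) ^ (m - s) := by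
      intro A hA
      rw [hcardF, (mem_powersetCard.mp hA).2, (mem_powersetCard.mp hS).2]
    rw [sum_congr rfl h2, sum_const, card_powersetCard, card_univ, Fintype.card_fin, smul_eq_mul]
  refine (sum_le_card_nsmul _ _ _ h1).trans (le_of_eq ?_)
  rw [card_powersetCard, card_univ, Fintype.card_fin, smul_eq_mul]
  ring

/-- The real estimate for one term. -/
theorem term_le {Δ : ℝ} (hΔ : 0 < Δ) {s : ℕ} (hs : 1 ≤ s) (hn : 0 < n) (hm : (m : ℝ) ≤ Δ * n) :
    (m.choose s : ℝ) * n.choose (vv s) * (((vv s : ℝ) / n) ^ 3) ^ s ≤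
      (2 * Real.exp 3 * Δ) ^ s * (2 * s / n) ^ (2 * s - vv s) := by
  set v := vv s with hvdef
  have hv2 : v ≤ 2 * s - 1 := by
    rw [hvdef]
    unfold vv
    omega
  have hn0 : (0 : ℝ) < n := by exact_mod_cast hn
  have hs0 : (0 : ℝ) < s := by exact_mod_cast hs
  have h1 : (m.choose s : ℝ) ≤ (Δ * n) ^ s / s.factorial := by
    refine (Nat.choose_le_pow_div s m).trans ?_
    gcongr
  have h2 : (n.choose v : ℝ) ≤ (n : ℝ) ^ v / v.factorial := Nat.choose_le_pow_div v n
  have h3 : (s : ℝ) ^ s / s.factorial ≤ Real.exp s := Real.pow_div_factorial_le_exp _ hs0.le _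
  have h4 : (v : ℝ) ^ v / v.factorial ≤ Real.exp v :=
    Real.pow_div_factorial_le_exp _ (Nat.cast_nonneg v) _
  have h5 : Real.exp s * Real.exp v ≤ Real.exp 3 ^ s := by
    rw [← Real.exp_add, ← Real.exp_nat_mul]
    apply Real.exp_le_exp.mpr
    have : (v : ℝ) ≤ 2 * s := by
      have : v ≤ 2 * s := by omega
      exact_mod_cast this
    linarith
  have hvs : (v : ℝ) ≤ 2 * s := by
    have : v ≤ 2 * s := by omega
    exact_mod_cast this
  -- 3 s = v + (s + (2 s - v))
  have hexp : 3 * s = v + (s + (2 * s - v)) := by omega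
  have hexp2 : s + v + (2 * s - v) = 3 * s := by omega
  have hfs : (0 : ℝ) < s.factorial := by exact_mod_cast Nat.factorial_pos s
  have hfv : (0 : ℝ) < v.factorial := by exact_mod_cast Nat.factorial_pos v
  calc (m.choose s : ℝ) * n.choose v * (((v : ℝ) / n) ^ 3) ^ s
      ≤ ((Δ * n) ^ s / s.factorial) * ((n : ℝ) ^ v / v.factorial) * (((v : ℝ) / n) ^ 3) ^ s := by
        gcongr
    _ = Δ ^ s * (1 / s.factorial) * ((v : ℝ) ^ v / v.factorial) * (v : ℝ) ^ (s + (2 * s - v)) /
          (n : ℝ) ^ (2 * s - v) := by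
        rw [← pow_mul, div_pow, hexp, pow_add (v : ℝ) v]
        have e1 : (n : ℝ) ^ (v + (s + (2 * s - v))) =
            (n : ℝ) ^ v * ((n : ℝ) ^ s * (n : ℝ) ^ (2 * s - v)) := by
          rw [pow_add, pow_add]
        rw [e1, mul_pow]
        field_simp
    _ ≤ Δ ^ s * (1 / s.factorial) * Real.exp v * (2 * s : ℝ) ^ (s + (2 * s - v)) /
          (n : ℝ) ^ (2 * s - v) := by
        gcongr
    _ = Δ ^ s * 2 ^ s * (((s : ℝ) ^ s / s.factorial) * Real.exp v) *
          (2 * s / n) ^ (2 * s - v) := by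
        rw [pow_add, mul_pow 2 (s : ℝ) s, div_pow]
        field_simp
    _ ≤ Δ ^ s * 2 ^ s * (Real.exp s * Real.exp v) * (2 * s / n) ^ (2 * s - v) := by
        gcongr
    _ ≤ Δ ^ s * 2 ^ s * (Real.exp 3 ^ s) * (2 * s / n) ^ (2 * s - v) := by
        gcongr
    _ = (2 * Real.exp 3 * Δ) ^ s * (2 * s / n) ^ (2 * s - v) := by
        rw [mul_pow, mul_pow]
        ring

theorem sum_half (R : ℕ) : ∑ s ∈ Icc 1 R, (s : ℝ) * (1 / 2) ^ s ≤ 2 - (R + 2) * (1 / 2) ^ R := by
  induction R with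
  | zero => simp
  | succ R ih =>
    rw [Finset.sum_Icc_succ_top (by omega)]
    push_cast
    rw [pow_succ]
    linarith

theorem term_le' {Δ K r : ℝ} (hΔ : 0 < Δ) (hK1 : 1 ≤ K) (hK : 2 * Real.exp 3 * Δ ≤ K)
    (hr : 2 * K ^ 4 * r ≤ 1 / 16) {s : ℕ} (hs : 1 ≤ s) (hn : 0 < n)
    (hsr : (s : ℝ) ≤ r * n) :
    (2 * Real.exp 3 * Δ) ^ s * (2 * s / n) ^ (2 * s - vv s) ≤
      16 * K ^ 4 / n * (s * (1 / 2) ^ s) := by
  set j := 2 * s - vv s with hj
  have hj1 : 1 ≤ j := by
    rw [hj]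
    unfold vv
    omega
  have hj4 : s + 1 ≤ 4 * j := by
    rw [hj]
    unfold vv
    omega
  have hn0 : (0 : ℝ) < n := by exact_mod_cast hn
  have hs0 : (0 : ℝ) < s := by exact_mod_cast hs
  have h1 : (2 * Real.exp 3 * Δ) ^ s ≤ (K ^ 4) ^ j := by
    rw [← pow_mul]
    refine (pow_le_pow_left₀ (by positivity) hK s).trans ?_
    exact pow_le_pow_right₀ hK1 (by omega)
  have h2 : K ^ 4 * (2 * s / n) ≤ 1 / 16 := by
    refine le_trans ?_ hr
    rw [mul_div_assoc', div_le_iff₀ hn0]
    have : 0 ≤ K ^ 4 := by positivity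
    nlinarith
  obtain ⟨i, hi⟩ : ∃ i, j = i + 1 := ⟨j - 1, by omega⟩
  have h3 : ((1 : ℝ) / 16) ^ i ≤ 8 * (1 / 2) ^ s := by
    have h4 : ((1 : ℝ) / 16) ^ i = 8 * (1 / 2) ^ (4 * i + 3) := by
      rw [pow_add, pow_mul]
      norm_num
      ring
    rw [h4]
    have h5 : ((1 : ℝ) / 2) ^ (4 * i + 3) ≤ (1 / 2) ^ s :=
      pow_le_pow_of_le_one (by norm_num) (by norm_num) (by omega)
    linarith
  calc (2 * Real.exp 3 * Δ) ^ s * (2 * s / n) ^ j
      ≤ (K ^ 4) ^ j * (2 * s / n) ^ j := by gcongr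
    _ = (K ^ 4 * (2 * s / n)) ^ i * (K ^ 4 * (2 * s / n)) := by
        rw [← mul_pow, hi, pow_succ]
    _ ≤ (1 / 16) ^ i * (K ^ 4 * (2 * s / n)) := by
        refine mul_le_mul_of_nonneg_right ?_ (by positivity)
        exact pow_le_pow_left₀ (by positivity) h2 i
    _ ≤ (8 * (1 / 2) ^ s) * (K ^ 4 * (2 * s / n)) :=
        mul_le_mul_of_nonneg_right h3 (by positivity)
    _ = 16 * K ^ 4 / n * (s * (1 / 2) ^ s) := by
        field_simp
        ring

open Classical in
theorem exp_whp {Δ : ℝ} (hΔ : 0 < Δ) : ∃ r : ℝ, 0 < r ∧ ∃ C : ℝ, ∀ n m R : ℕ, 3 ≤ n →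
    (m : ℝ) ≤ Δ * n → (R : ℝ) ≤ r * n →
    ((univ.filter (fun F : Fin m → Clause n => ¬ Exp (vsF F) R)).card : ℝ) ≤
      C / n * Fintype.card (Fin m → Clause n) := by
  set K : ℝ := max 1 (2 * Real.exp 3 * Δ) with hKdef
  have hK1 : 1 ≤ K := le_max_left _ _
  have hK : 2 * Real.exp 3 * Δ ≤ K := le_max_right _ _
  have hK4 : 1 ≤ K ^ 4 := one_le_pow₀ hK1
  refine ⟨1 / (32 * K ^ 4), by positivity, 32 * K ^ 4, ?_⟩
  intro n m R hn hm hR
  have hr : 2 * K ^ 4 * (1 / (32 * K ^ 4)) ≤ 1 / 16 := by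
    have : K ^ 4 ≠ 0 := by positivity
    field_simp
    norm_num
  have hr1 : 1 / (32 * K ^ 4) ≤ 1 / 32 := by
    apply one_div_le_one_div_of_le (by norm_num)
    linarith
  have hn0 : (0 : ℝ) < n := by
    have : 0 < n := by omega
    exact_mod_cast this
  have hRn : 2 * R ≤ n := by
    have h1 : (R : ℝ) ≤ 1 / 32 * n := hR.trans (mul_le_mul_of_nonneg_right hr1 hn0.le)
    have h2 : (2 * R : ℝ) ≤ n := by linarith
    exact_mod_cast h2
  have hN : (0 : ℝ) < 8 * n.choose 3 := by
    have : 0 < n.choose 3 := Nat.choose_pos hn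
    have h2 : (0 : ℝ) < n.choose 3 := by exact_mod_cast this
    linarith
  have h0 := card_bad_le (n := n) (m := m) R hRn
  have htot : (Fintype.card (Fin m → Clause n) : ℝ) = (8 * n.choose 3 : ℝ) ^ m := by
    rw [Fintype.card_fun, Fintype.card_fin, card_clause]
    push_cast
    ring
  rw [htot]
  have h1 : ((univ.filter (fun F : Fin m → Clause n => ¬ Exp (vsF F) R)).card : ℝ) ≤
      ∑ s ∈ Icc 1 R, (m.choose s : ℝ) * n.choose (vv s) *
        ((8 * (vv s).choose 3 : ℝ) ^ s * (8 * n.choose 3 : ℝ) ^ (m - s)) := by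
    refine le_trans (Nat.cast_le.mpr h0) (le_of_eq ?_)
    push_cast
    rfl
  refine h1.trans ?_
  have h2 : ∀ s ∈ Icc 1 R, (m.choose s : ℝ) * n.choose (vv s) *
        ((8 * (vv s).choose 3 : ℝ) ^ s * (8 * n.choose 3 : ℝ) ^ (m - s)) ≤
      16 * K ^ 4 / n * (s * (1 / 2) ^ s) * (8 * n.choose 3 : ℝ) ^ m := by
    intro s hs
    obtain ⟨hs1, hsR⟩ := mem_Icc.mp hs
    have hvn : vv s ≤ n := by
      unfold vv
      omega
    by_cases hsm : m < s
    · rw [Nat.choose_eq_zero_of_lt hsm]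
      push_cast
      rw [zero_mul, zero_mul]
      positivity
    · rw [not_lt] at hsm
      have h3 : (8 * (vv s).choose 3 : ℝ) ≤ ((vv s : ℝ) / n) ^ 3 * (8 * n.choose 3) := by
        have h4 : ((vv s).choose 3 * n ^ 3 : ℝ) ≤ (vv s) ^ 3 * n.choose 3 := by
          exact_mod_cast choose_three_le hvn
        rw [div_pow, div_mul_eq_mul_div, le_div_iff₀ (by positivity)]
        linarith
      have h5 : (8 * (vv s).choose 3 : ℝ) ^ s * (8 * n.choose 3 : ℝ) ^ (m - s) ≤
          (((vv s : ℝ) / n) ^ 3) ^ s * (8 * n.choose 3 : ℝ) ^ m := by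
        calc (8 * (vv s).choose 3 : ℝ) ^ s * (8 * n.choose 3 : ℝ) ^ (m - s)
            ≤ (((vv s : ℝ) / n) ^ 3 * (8 * n.choose 3)) ^ s * (8 * n.choose 3 : ℝ) ^ (m - s) := by
              gcongr
          _ = (((vv s : ℝ) / n) ^ 3) ^ s * ((8 * n.choose 3 : ℝ) ^ s *
                (8 * n.choose 3 : ℝ) ^ (m - s)) := by
              rw [mul_pow]
              ring
          _ = (((vv s : ℝ) / n) ^ 3) ^ s * (8 * n.choose 3 : ℝ) ^ m := by
              rw [← pow_add, Nat.add_sub_cancel' hsm]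
      have hsr : (s : ℝ) ≤ 1 / (32 * K ^ 4) * n := by
        refine le_trans ?_ hR
        exact_mod_cast hsR
      calc (m.choose s : ℝ) * n.choose (vv s) *
            ((8 * (vv s).choose 3 : ℝ) ^ s * (8 * n.choose 3 : ℝ) ^ (m - s))
          ≤ (m.choose s : ℝ) * n.choose (vv s) *
            ((((vv s : ℝ) / n) ^ 3) ^ s * (8 * n.choose 3 : ℝ) ^ m) := by gcongr
        _ = ((m.choose s : ℝ) * n.choose (vv s) * (((vv s : ℝ) / n) ^ 3) ^ s) *
            (8 * n.choose 3 : ℝ) ^ m := by ring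
        _ ≤ ((2 * Real.exp 3 * Δ) ^ s * (2 * s / n) ^ (2 * s - vv s)) *
            (8 * n.choose 3 : ℝ) ^ m := by
            refine mul_le_mul_of_nonneg_right ?_ (by positivity)
            exact term_le hΔ hs1 (by omega) hm
        _ ≤ 16 * K ^ 4 / n * (s * (1 / 2) ^ s) * (8 * n.choose 3 : ℝ) ^ m := by
            refine mul_le_mul_of_nonneg_right ?_ (by positivity)
            exact term_le' hΔ hK1 hK hr hs1 (by omega) hsr
  refine (sum_le_sum h2).trans ?_
  rw [← sum_mul, ← mul_sum]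
  refine mul_le_mul_of_nonneg_right ?_ (by positivity)
  have h6 := sum_half R
  have h7 : (0 : ℝ) ≤ (R + 2) * (1 / 2) ^ R := by positivity
  have h8 : ∑ s ∈ Icc 1 R, (s : ℝ) * (1 / 2) ^ s ≤ 2 := by linarith
  calc 16 * K ^ 4 / n * ∑ s ∈ Icc 1 R, (s : ℝ) * (1 / 2) ^ s
      ≤ 16 * K ^ 4 / n * 2 := by gcongr
    _ = 32 * K ^ 4 / n := by ring

end MP86d903
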