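import Mathlib

/-!
Closed sets of variables in an expanding 3-uniform hypergraph (MP_86d903_lc).
-/

open Finset

namespace MP86d903

variable {ι V : Type} [DecidableEq ι] [Fintype V] [DecidableEq V] (vs : ι → Finset V)

/-- Expansion: every set of at most `R` clauses has at least `7/4` as many variables. -/
def Exp (R : ℕ) : Prop :=
  ∀ S : Finset ι, S.card ≤ R → 7 * S.card ≤ 4 * (S.biUnion vs).card

/-- Closed sets of variables. -/
def Closed (q : ℕ) (A : Finset V) : Prop :=
  ∀ S : Finset ι, S.Nonempty → S.card ≤ q → (∀ c ∈ S, ¬ vs c ⊆ A) →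
    5 * S.card < 3 * (S.biUnion vs \ A).card

variable {vs}

theorem Closed.inter {q : ℕ} {A B : Finset V} (hA : Closed vs q A) (hB : Closed vs q B) :
    Closed vs q (A ∩ B) := by
  classical
  intro S hS hq hc
  set S1 := S.filter (fun c => ¬ vs c ⊆ A) with hS1
  set S2 := S.filter (fun c => vs c ⊆ A) with hS2
  have hcard : S2.card + S1.card = S.card := Finset.card_filter_add_card_filter_not _
  have h2A : S2.biUnion vs ⊆ A := by
    intro v hv
    rw [mem_biUnion] at hv
    obtain ⟨c, hc, hv⟩ := hv
    exact (mem_filter.mp hc).2 hv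
  have hdisj : Disjoint (S1.biUnion vs \ A) (S2.biUnion vs \ B) := by
    rw [Finset.disjoint_left]
    intro v hv hv'
    exact (mem_sdiff.mp hv).2 (h2A (mem_sdiff.mp hv').1)
  have hsub : (S1.biUnion vs \ A) ∪ (S2.biUnion vs \ B) ⊆ S.biUnion vs \ (A ∩ B) := by
    intro v hv
    rcases mem_union.mp hv with hv | hv
    · obtain ⟨h1, h2⟩ := mem_sdiff.mp hv
      refine mem_sdiff.mpr ⟨?_, fun h => h2 (mem_inter.mp h).1⟩
      exact biUnion_subset_biUnion_of_subset_left _ (filter_subset _ _) h1
    · obtain ⟨h1, h2⟩ := mem_sdiff.mp hv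
      refine mem_sdiff.mpr ⟨?_, fun h => h2 (mem_inter.mp h).2⟩
      exact biUnion_subset_biUnion_of_subset_left _ (filter_subset _ _) h1
  have hle : (S1.biUnion vs \ A).card + (S2.biUnion vs \ B).card ≤
      (S.biUnion vs \ (A ∩ B)).card := by
    rw [← card_union_of_disjoint hdisj]
    exact card_le_card hsub
  have hs1 : S1.Nonempty → 5 * S1.card < 3 * (S1.biUnion vs \ A).card := by
    intro h
    exact hA S1 h ((card_le_card (filter_subset _ _)).trans hq)
      (fun c hc => (mem_filter.mp hc).2)
  have hs2 : S2.Nonempty → 5 * S2.card < 3 * (S2.biUnion vs \ B).card := by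
    intro h
    refine hB S2 h ((card_le_card (filter_subset _ _)).trans hq) (fun c hcc hsubB => ?_)
    obtain ⟨hcS, hcA⟩ := mem_filter.mp hcc
    exact hc c hcS (subset_inter hcA hsubB)
  rcases S1.eq_empty_or_nonempty with he1 | hn1
  · rcases S2.eq_empty_or_nonempty with he2 | hn2
    · rw [he1, he2] at hcard
      simp only [card_empty] at hcard
      have := card_pos.mpr hS
      omega
    · have := hs2 hn2
      rw [he1] at hcard
      simp only [card_empty] at hcard
      omega
  · have h1 := hs1 hn1
    rcases S2.eq_empty_or_nonempty with he2 | hn2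
    · rw [he2] at hcard
      simp only [card_empty] at hcard
      omega
    · have := hs2 hn2
      omega

theorem closed_univ (q : ℕ) : Closed vs q (univ : Finset V) := by
  intro S hS _ hc
  obtain ⟨c, hcS⟩ := hS
  exact absurd (subset_univ _) (hc c hcS)

variable (vs)

open Classical in
/-- The closure of a set of variables. -/
noncomputable def Cl (q : ℕ) (T : Finset V) : Finset V :=
  ((univ : Finset (Finset V)).filter (fun A => Closed vs q A ∧ T ⊆ A)).inf id

variable {vs}

theorem closed_Cl (q : ℕ) (T : Finset V) : Closed vs q (Cl vs q T) := by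
  classical
  refine Finset.inf_induction (p := fun A => Closed vs q A) (closed_univ q)
    (fun A hA B hB => hA.inter hB) ?_
  intro A hA
  exact (mem_filter.mp hA).2.1

theorem subset_Cl (q : ℕ) (T : Finset V) : T ⊆ Cl vs q T := by
  classical
  refine Finset.le_inf ?_
  intro A hA
  exact (mem_filter.mp hA).2.2

theorem Cl_subset {q : ℕ} {T A : Finset V} (hA : Closed vs q A) (hT : T ⊆ A) :
    Cl vs q T ⊆ A := by
  classical
  exact Finset.inf_le (f := id) (mem_filter.mpr ⟨mem_univ _, hA, hT⟩)

theorem Cl_mono {q : ℕ} {T T' : Finset V} (h : T ⊆ T') : Cl vs q T ⊆ Cl vs q T' :=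
  Cl_subset (closed_Cl q T') (h.trans (subset_Cl q T'))

/-- Small sets have small closures. -/
theorem exists_small_closed [Fintype ι] {q R : ℕ} (hE : Exp vs R) (h3 : ∀ c, (vs c).card ≤ 3)
    (T : Finset V) (hT : 12 * T.card + q ≤ R) :
    ∃ A, Closed vs q A ∧ T ⊆ A ∧ A.card ≤ 37 * T.card := by
  classical
  set 𝒰 := (univ : Finset (Finset ι)).filter
    (fun U => U.card ≤ R ∧ 3 * (U.biUnion vs \ T).card ≤ 5 * U.card) with h𝒰
  have hne : 𝒰.Nonempty := ⟨∅, by rw [h𝒰, mem_filter]; simp⟩
  obtain ⟨U, hU, hmax⟩ := exists_max_image 𝒰 card hne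
  obtain ⟨-, hUR, hUN⟩ := mem_filter.mp hU
  have hN : (U.biUnion vs).card ≤ (U.biUnion vs \ T).card + T.card := by
    have := card_le_card_sdiff_add_card (s := U.biUnion vs) (t := T)
    omega
  have hE' := hE U hUR
  have hU12 : U.card ≤ 12 * T.card := by omega
  have hcardN : (U.biUnion vs).card ≤ 3 * U.card := by
    rw [mul_comm]
    exact card_biUnion_le_card_mul _ _ _ (fun c _ => h3 c)
  refine ⟨T ∪ U.biUnion vs, ?_, subset_union_left, ?_⟩
  · intro S hS hq hc
    by_contra hcon
    rw [not_lt] at hcon
    have hdisj : Disjoint U S := by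
      rw [Finset.disjoint_left]
      intro c hcU hcS
      exact hc c hcS ((subset_biUnion_of_mem vs hcU).trans subset_union_right)
    have hcU : (U ∪ S).card = U.card + S.card := card_union_of_disjoint hdisj
    have hmem : U ∪ S ∈ 𝒰 := by
      rw [h𝒰, mem_filter]
      refine ⟨mem_univ _, by omega, ?_⟩
      have hsub : (U ∪ S).biUnion vs \ T ⊆
          (U.biUnion vs \ T) ∪ (S.biUnion vs \ (T ∪ U.biUnion vs)) := by
        intro v hv
        obtain ⟨hv1, hv2⟩ := mem_sdiff.mp hv
        by_cases hvU : v ∈ U.biUnion vs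
        · exact mem_union_left _ (mem_sdiff.mpr ⟨hvU, hv2⟩)
        · refine mem_union_right _ (mem_sdiff.mpr ⟨?_, ?_⟩)
          · obtain ⟨c, hc, hvc⟩ := mem_biUnion.mp hv1
            rcases mem_union.mp hc with h | h
            · exact absurd (mem_biUnion.mpr ⟨c, h, hvc⟩) hvU
            · exact mem_biUnion.mpr ⟨c, h, hvc⟩
          · intro h
            rcases mem_union.mp h with h | h
            · exact hv2 h
            · exact hvU h
      have := (card_le_card hsub).trans (card_union_le _ _)
      omega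
    have := hmax _ hmem
    have := card_pos.mpr hS
    omega
  · have := card_union_le T (U.biUnion vs)
    omega

theorem card_Cl_le [Fintype ι] {q R : ℕ} (hE : Exp vs R) (h3 : ∀ c, (vs c).card ≤ 3)
    (T : Finset V) (hT : 12 * T.card + q ≤ R) : (Cl vs q T).card ≤ 37 * T.card := by
  obtain ⟨A, hA, hTA, hc⟩ := exists_small_closed hE h3 T hT
  exact (card_le_card (Cl_subset hA hTA)).trans hc

open Classical in
/-- The clauses all of whose variables lie in `A`. -/
noncomputable def inside [Fintype ι] (vs : ι → Finset V) (A : Finset V) : Finset ι :=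
  univ.filter (fun c => vs c ⊆ A)

theorem mem_inside [Fintype ι] {A : Finset V} {c : ι} : c ∈ inside vs A ↔ vs c ⊆ A := by
  classical
  simp [inside]

theorem card_inside_le [Fintype ι] {R : ℕ} (hE : Exp vs R) (A : Finset V)
    (hA : 4 * A.card < 7 * R) : 7 * (inside vs A).card ≤ 4 * A.card := by
  classical
  have hsub : ∀ S : Finset ι, S ⊆ inside vs A → (S.biUnion vs).card ≤ A.card := by
    intro S hS
    refine card_le_card ?_
    intro v hv
    obtain ⟨c, hc, hvc⟩ := mem_biUnion.mp hv
    exact (mem_inside.mp (hS hc)) hvc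
  have hlt : (inside vs A).card ≤ R := by
    by_contra hcon
    rw [not_le] at hcon
    obtain ⟨S, hS, hSc⟩ := exists_subset_card_eq (s := inside vs A) hcon.le
    have h1 := hE S hSc.le
    have h2 := hsub S hS
    omega
  have h1 := hE _ hlt
  have h2 := hsub _ (subset_refl _)
  omega

end MP86d903
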