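import Pool.Agent.Helper80.CP.Step

/-!
The family of half-integral points and its behaviour under the rules of cutting planes
(MP_86d903_lc).
-/

open Finset

namespace MP86d903

variable {ι V : Type} [DecidableEq ι] [Fintype V] [DecidableEq V] [Fintype ι]
  (vs ng : ι → Finset V)

/-- The pairs (closed set, valid assignment) generated by at most `t` variables over `T₀`. -/
def Fam (q : ℕ) (T₀ : Finset V) (ρ₀ : V → Bool) (t : ℕ) (A : Finset V) (ρ : V → Bool) : Prop :=
  ∃ T : Finset V, T.card ≤ t ∧ A = Cl vs q (T₀ ∪ T) ∧ Valid vs ng ρ A ∧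
    ∀ i ∈ Cl vs q T₀, ρ i = ρ₀ i

/-- The inequality `∑ a i * x i ≥ b` holds at all points of the family. -/
def Holds (q : ℕ) (T₀ : Finset V) (ρ₀ : V → Bool) (t : ℕ) (a : V → ℤ) (b : ℤ) : Prop :=
  ∀ A ρ, Fam vs ng q T₀ ρ₀ t A ρ → 2 * b ≤ ∑ i, a i * pt A ρ i

variable {vs ng} {q : ℕ} {T₀ : Finset V} {ρ₀ : V → Bool} {t : ℕ}

theorem pt_nonneg (A : Finset V) (ρ : V → Bool) (i : V) : 0 ≤ pt A ρ i := by
  unfold pt
  split_ifs <;> norm_num

theorem pt_le_two (A : Finset V) (ρ : V → Bool) (i : V) : pt A ρ i ≤ 2 := by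
  unfold pt
  split_ifs <;> norm_num

theorem Fam.mono {t t' : ℕ} (h : t ≤ t') {A : Finset V} {ρ : V → Bool}
    (hF : Fam vs ng q T₀ ρ₀ t A ρ) : Fam vs ng q T₀ ρ₀ t' A ρ := by
  obtain ⟨T, hT, h1, h2, h3⟩ := hF
  exact ⟨T, hT.trans h, h1, h2, h3⟩

theorem Holds.mono {t t' : ℕ} (h : t ≤ t') {a : V → ℤ} {b : ℤ}
    (hH : Holds vs ng q T₀ ρ₀ t' a b) : Holds vs ng q T₀ ρ₀ t a b :=
  fun A ρ hF => hH A ρ (hF.mono h)

/-- Clauses hold at all points of the family. -/
theorem holds_clause (hq : 1 ≤ q) (hng : ∀ c, ng c ⊆ vs c) (c : ι) (a : V → ℤ) (b : ℤ)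
    (ha : ∀ i, a i = if i ∈ ng c then -1 else if i ∈ vs c then 1 else 0)
    (hb : b = 1 - (ng c).card) : Holds vs ng q T₀ ρ₀ t a b := by
  classical
  rintro A ρ ⟨T, -, rfl, hval, -⟩
  set A := Cl vs q (T₀ ∪ T) with hA
  have hcl : Closed vs q A := closed_Cl q _
  -- value of the literal at i, doubled
  set lv : V → ℤ := fun i => if i ∈ ng c then 2 - pt A ρ i else pt A ρ i with hlv
  have hsum : ∑ i, a i * pt A ρ i = ∑ i ∈ vs c, lv i - 2 * (ng c).card := by
    have h1 : ∀ i, a i * pt A ρ i =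
        (if i ∈ vs c then lv i else 0) - 2 * (if i ∈ ng c then 1 else 0) := by
      intro i
      rw [ha i]
      by_cases h1 : i ∈ ng c
      · rw [if_pos h1, if_pos (hng c h1), if_pos h1]
        simp only [hlv, if_pos h1]
        ring
      · rw [if_neg h1, if_neg h1]
        by_cases h2 : i ∈ vs c
        · rw [if_pos h2, if_pos h2]
          simp only [hlv, if_neg h1]
          ring
        · rw [if_neg h2, if_neg h2]
          ring
    rw [sum_congr rfl (fun i _ => h1 i), sum_sub_distrib, ← mul_sum]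
    simp
  have hlv0 : ∀ i, 0 ≤ lv i := by
    intro i
    simp only [hlv]
    have h1 := pt_nonneg A ρ i
    have h2 := pt_le_two A ρ i
    split_ifs <;> omega
  have hmain : 2 ≤ ∑ i ∈ vs c, lv i := by
    by_cases hcA : vs c ⊆ A
    · obtain ⟨i, hi, hl⟩ := hval c hcA
      have h2 : lv i = 2 := by
        simp only [hlv, pt, if_pos (hcA hi)]
        unfold Lit at hl
        by_cases h1 : i ∈ ng c
        · simp only [h1, decide_true, Bool.not_true] at hl
          simp [h1, hl]
        · simp only [h1, decide_false, Bool.not_false] at hl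
          simp [h1, hl]
      have := single_le_sum (f := lv) (fun j _ => hlv0 j) hi
      omega
    · have h1 := hcl {c} (singleton_nonempty _) (by rw [card_singleton]; exact hq) (by
        intro c' hc'
        rw [mem_singleton] at hc'
        rw [hc']
        exact hcA)
      rw [card_singleton, singleton_biUnion] at h1
      have h2 : ∀ i ∈ vs c \ A, lv i = 1 := by
        intro i hi
        have := (mem_sdiff.mp hi).2
        simp only [hlv, pt, if_neg this]
        split_ifs <;> norm_num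
      have h3 : ∑ i ∈ vs c \ A, lv i ≤ ∑ i ∈ vs c, lv i :=
        sum_le_sum_of_subset_of_nonneg sdiff_subset (fun i _ _ => hlv0 i)
      rw [sum_congr rfl h2] at h3
      simp only [sum_const, nsmul_eq_mul, mul_one] at h3
      have h4 : (2 : ℤ) ≤ ((vs c \ A).card : ℤ) := by
        have : 2 ≤ (vs c \ A).card := by omega
        exact_mod_cast this
      omega
  rw [hsum, hb]
  omega

theorem holds_lower (v : V) : Holds vs ng q T₀ ρ₀ t (Pi.single v 1) 0 := by
  intro A ρ _
  rw [Finset.sum_eq_single v]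
  · have := pt_nonneg A ρ v
    simp
    exact this
  · intro i _ hi
    rw [Pi.single_eq_of_ne hi, zero_mul]
  · intro h
    exact absurd (mem_univ v) h

theorem holds_upper (v : V) : Holds vs ng q T₀ ρ₀ t (Pi.single v (-1)) (-1) := by
  intro A ρ _
  rw [Finset.sum_eq_single v]
  · have := pt_le_two A ρ v
    simp
    omega
  · intro i _ hi
    rw [Pi.single_eq_of_ne hi, zero_mul]
  · intro h
    exact absurd (mem_univ v) h

theorem holds_comb {a a₁ a₂ : V → ℤ} {b b₁ b₂ : ℤ} {α β : ℕ}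
    (ha : ∀ i, a i = α * a₁ i + β * a₂ i) (hb : b = α * b₁ + β * b₂)
    (h₁ : Holds vs ng q T₀ ρ₀ t a₁ b₁) (h₂ : Holds vs ng q T₀ ρ₀ t a₂ b₂) :
    Holds vs ng q T₀ ρ₀ t a b := by
  intro A ρ hF
  have e1 := h₁ A ρ hF
  have e2 := h₂ A ρ hF
  have e3 : ∑ i, a i * pt A ρ i =
      α * ∑ i, a₁ i * pt A ρ i + β * ∑ i, a₂ i * pt A ρ i := by
    rw [mul_sum, mul_sum, ← sum_add_distrib]
    refine sum_congr rfl (fun i _ => ?_)
    rw [ha i]
    ring
  rw [e3, hb]
  have f1 := mul_le_mul_of_nonneg_left e1 (Int.natCast_nonneg α)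
  have f2 := mul_le_mul_of_nonneg_left e2 (Int.natCast_nonneg β)
  linarith

/-- Rounding to a narrow inequality is free. -/
theorem holds_narrow (h3 : ∀ c, (vs c).card ≤ 3) {M : ℕ}
    (hI : ∀ T : Finset V, T.card ≤ M → (inside vs (Cl vs q T)).card ≤ q)
    {a a' : V → ℤ} {b b' : ℤ} {c : ℕ} (hc : 1 ≤ c) (ha : ∀ i, a i = c * a' i)
    (hb : b' = ⌈(b : ℚ) / c⌉) {t' : ℕ}
    (hsupp : (univ.filter (fun i => a' i ≠ 0)).card ≤ t)
    (hM : T₀.card + t' + t ≤ M) (hH : Holds vs ng q T₀ ρ₀ t a b) :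
    Holds vs ng q T₀ ρ₀ t' a' b' := by
  classical
  rintro A ρ ⟨T, hT, rfl, hval, hρ₀⟩
  set W := univ.filter (fun i => a' i ≠ 0) with hW
  set A := Cl vs q (T₀ ∪ T) with hA
  set B := Cl vs q (T₀ ∪ T ∪ W) with hB
  set E := Cl vs q (T₀ ∪ W) with hE
  have hAB : A ⊆ B := Cl_mono subset_union_left
  have hEB : E ⊆ B := Cl_mono (union_subset_union_left subset_union_left)
  have h0A : Cl vs q T₀ ⊆ A := Cl_mono subset_union_left
  have h0E : Cl vs q T₀ ⊆ E := Cl_mono subset_union_left
  have hWE : W ⊆ E := subset_union_right.trans (subset_Cl q _)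
  have hBq : (inside vs B).card ≤ q := by
    apply hI
    have h1 := card_union_le (T₀ ∪ T) W
    have h2 := card_union_le T₀ T
    omega
  obtain ⟨σ, hσA, hv1, hv2⟩ := exists_ext h3 (closed_Cl q _) hBq hval
  -- every valid assignment on B satisfies the rounded inequality
  have key : ∀ τ : V → Bool, Valid vs ng τ B → (∀ i ∈ A, τ i = ρ i) →
      2 * b' ≤ ∑ i, a' i * pt B τ i := by
    intro τ hτ hτA
    have hFam : Fam vs ng q T₀ ρ₀ t E τ := by
      refine ⟨W, hsupp, rfl, fun c hc => hτ c (hc.trans hEB), fun i hi => ?_⟩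
      rw [hτA i (h0A hi)]
      exact hρ₀ i hi
    have h1 := hH E τ hFam
    have h2 : ∀ i, a i * pt E τ i = 2 * ((c : ℤ) * (a' i * if τ i then 1 else 0)) := by
      intro i
      rw [ha i]
      by_cases hi : a' i = 0
      · simp [hi]
      · have : i ∈ E := hWE (mem_filter.mpr ⟨mem_univ _, hi⟩)
        simp only [pt, if_pos this]
        cases τ i <;> simp
        ring
    have h2' : ∀ i, a' i * pt B τ i = 2 * (a' i * if τ i then 1 else 0) := by
      intro i
      by_cases hi : a' i = 0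
      · simp [hi]
      · have : i ∈ B := hEB (hWE (mem_filter.mpr ⟨mem_univ _, hi⟩))
        simp only [pt, if_pos this]
        cases τ i <;> simp
        ring
    rw [sum_congr rfl (fun i _ => h2 i), ← mul_sum, ← mul_sum] at h1
    rw [sum_congr rfl (fun i _ => h2' i), ← mul_sum]
    set s := ∑ i, (a' i * if τ i then 1 else 0 : ℤ) with hs
    have h4 : b ≤ c * s := by omega
    have h5 : b' ≤ s := by
      rw [hb, Int.ceil_le, div_le_iff₀ (by exact_mod_cast hc)]
      have : (b : ℚ) ≤ ((c * s : ℤ) : ℚ) := by exact_mod_cast h4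
      rw [Int.cast_mul] at this
      push_cast at this
      linarith
    omega
  have k1 := key σ hv1 hσA
  have k2 := key (flip A σ) hv2 (by
    intro i hi
    unfold flip
    rw [if_pos hi]
    exact hσA i hi)
  have hsum : ∑ i, a' i * pt B σ i + ∑ i, a' i * pt B (flip A σ) i =
      2 * ∑ i, a' i * pt A ρ i := by
    rw [← sum_add_distrib, mul_sum]
    refine sum_congr rfl (fun i _ => ?_)
    have := pt_add_pt_flip hAB hσA i
    rw [← mul_add, this]
    ring
  omega

/-- The value of a linear form at a point of the family modulo two. -/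
theorem sum_pt_eq (A : Finset V) (ρ : V → Bool) (a : V → ℤ) :
    ∑ i, a i * pt A ρ i = 2 * ∑ i ∈ A, a i * (if ρ i then 1 else 0) + ∑ i ∈ Aᶜ, a i := by
  classical
  rw [← sum_add_sum_compl A, mul_sum]
  congr 1
  · refine sum_congr rfl (fun i hi => ?_)
    simp only [pt, if_pos hi]
    cases ρ i <;> simp
    ring
  · refine sum_congr rfl (fun i hi => ?_)
    rw [mem_compl] at hi
    simp only [pt, if_neg hi]
    ring

/-- A rounding step with small gain is free, any other costs one variable. -/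
theorem holds_div (h3 : ∀ c, (vs c).card = 3) (hq : 2 ≤ q) {M : ℕ}
    (hI : ∀ T : Finset V, T.card ≤ M → (inside vs (Cl vs q T)).card ≤ q)
    {a a' : V → ℤ} {b b' : ℤ} {c : ℕ} (hc : 1 ≤ c) (ha : ∀ i, a i = c * a' i)
    (hb : b' = ⌈(b : ℚ) / c⌉) (hM : T₀.card + t + 1 ≤ M)
    (hH : Holds vs ng q T₀ ρ₀ t a b)
    (hH' : (c : ℤ) ≤ 2 * (c * b' - b) → Holds vs ng q T₀ ρ₀ (t + 1) a b) :
    Holds vs ng q T₀ ρ₀ t a' b' := by
  classical
  intro A ρ hF
  by_contra hcon
  rw [not_le] at hcon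
  have hF' := hF
  obtain ⟨T, hT, hAT, hval, hρ₀⟩ := hF
  have hsuma : ∀ (C : Finset V) (τ : V → Bool),
      ∑ i, a i * pt C τ i = c * ∑ i, a' i * pt C τ i := by
    intro C τ
    rw [mul_sum]
    refine sum_congr rfl (fun i _ => ?_)
    rw [ha i]
    ring
  have h1 := hH A ρ hF'
  rw [hsuma] at h1
  set s := ∑ i, a' i * pt A ρ i with hs
  have hc0 : (0 : ℤ) < c := by exact_mod_cast hc
  have hblt : (c : ℤ) * (b' - 1) < b := by
    have : (b' : ℚ) - 1 < (b : ℚ) / c := by
      rw [hb]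
      have := Int.ceil_lt_add_one ((b : ℚ) / c)
      linarith
    rw [lt_div_iff₀ (by exact_mod_cast hc)] at this
    have h2 : (((b' - 1) * c : ℤ) : ℚ) < (b : ℚ) := by
      push_cast
      exact this
    have h4 : (b' - 1) * (c : ℤ) < b := by exact_mod_cast h2
    rw [mul_comm]
    exact h4
  -- the value is exactly 2b' - 1
  have hs1 : s = 2 * b' - 1 := by
    have h2 : (c : ℤ) * (2 * b' - 2) < c * s := by
      have : (c : ℤ) * (2 * b' - 2) = 2 * (c * (b' - 1)) := by ring
      rw [this]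
      omega
    have h4 := lt_of_mul_lt_mul_left h2 hc0.le
    omega
  have hgain : (c : ℤ) ≤ 2 * (c * b' - b) := by
    rw [hs1] at h1
    have : (c : ℤ) * (2 * b' - 1) = 2 * (c * b') - c := by ring
    rw [this] at h1
    omega
  have hH2 := hH' hgain
  have hodd : Odd (∑ i ∈ Aᶜ, a' i) := by
    have h2 := sum_pt_eq A ρ a'
    rw [← hs, hs1] at h2
    exact ⟨b' - 1 - ∑ i ∈ A, a' i * (if ρ i then 1 else 0), by omega⟩
  have hAcl : Closed vs q A := by
    rw [hAT]
    exact closed_Cl q _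
  obtain ⟨j, hj⟩ := step_lemma h3 hq hAcl hval a' hodd
  set B := Cl vs q (T₀ ∪ insert j T) with hB
  have hAB : A ⊆ B := by
    rw [hAT]
    exact Cl_mono (union_subset_union_right (subset_insert _ _))
  have hjB : j ∈ B := subset_Cl q _ (mem_union_right _ (mem_insert_self _ _))
  have hBq : (inside vs B).card ≤ q := by
    apply hI
    have h2 := card_union_le T₀ (insert j T)
    have h4 := card_insert_le j T
    omega
  obtain ⟨σ, hσA, hσv, hσlt⟩ := hj B (closed_Cl q _) hAB hjB hBq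
  have hFam : Fam vs ng q T₀ ρ₀ (t + 1) B σ := by
    refine ⟨insert j T, ?_, rfl, hσv, fun i hi => ?_⟩
    · have := card_insert_le j T
      omega
    · have hiA : i ∈ A := by
        rw [hAT]
        exact Cl_mono subset_union_left hi
      rw [hσA i hiA]
      exact hρ₀ i hi
  have h5 := hH2 B σ hFam
  rw [hsuma] at h5
  rw [← hs, hs1] at hσlt
  have h6 : (c : ℤ) * ∑ i, a' i * pt B σ i ≤ c * (2 * b' - 2) :=
    mul_le_mul_of_nonneg_left (by omega) hc0.le
  have h7 : (c : ℤ) * (2 * b' - 2) = 2 * (c * (b' - 1)) := by ring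
  omega

end MP86d903
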