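import Pool.Agent.Helper80.CP.Fam

/-!
Inequalities that are satisfied at all points of a family, and a greedy choice of a
small restriction which satisfies many light inequalities (MP_86d903_lc).
-/

open Finset

namespace MP86d903

variable {ι V : Type} [DecidableEq ι] [Fintype V] [DecidableEq V] [Fintype ι]
  {vs ng : ι → Finset V} {q : ℕ} {T₀ : Finset V} {ρ₀ : V → Bool} {t : ℕ}

/-- An inequality satisfied by the literals chosen on the root of the family. -/
theorem holds_killed {a : V → ℤ} {b : ℤ} (H : Finset V) (hH : H ⊆ Cl vs q T₀)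
    (hval : ∀ i ∈ H, ρ₀ i = decide (0 < a i))
    (hsum : b + ∑ i, max (-(a i)) 0 ≤ ∑ i ∈ H, |a i|) :
    Holds vs ng q T₀ ρ₀ t a b := by
  classical
  rintro A ρ ⟨T, -, hA, -, hρ⟩
  have h0A : Cl vs q T₀ ⊆ A := by
    rw [hA]
    exact Cl_mono subset_union_left
  have key : ∀ i, (if i ∈ H then 2 * |a i| else 0) - 2 * max (-(a i)) 0 ≤ a i * pt A ρ i := by
    intro i
    have h1 := pt_nonneg A ρ i
    have h2 := pt_le_two A ρ i
    by_cases hi : i ∈ H
    · rw [if_pos hi]
      have h3 := hval i hi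
      have h4 : pt A ρ i = if 0 < a i then 2 else 0 := by
        unfold pt
        rw [if_pos (h0A (hH hi)), hρ i (hH hi), h3]
        simp
      rw [h4]
      by_cases hp : 0 < a i
      · rw [if_pos hp, abs_of_pos hp, max_eq_right (by omega)]
        omega
      · rw [if_neg hp, abs_of_nonpos (by omega), max_eq_left (by omega)]
        omega
    · rw [if_neg hi]
      rcases le_total 0 (a i) with hp | hp
      · rw [max_eq_right (by omega)]
        have := mul_nonneg hp h1
        omega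
      · rw [max_eq_left (by omega)]
        nlinarith
  have h5 := Finset.sum_le_sum (s := univ) (fun i _ => key i)
  rw [sum_sub_distrib, ← mul_sum, ← sum_filter, ← mul_sum] at h5
  have h6 : (univ.filter (fun i => i ∈ H)) = H := by
    ext i
    simp
  rw [h6] at h5
  omega

/-- An inequality with no violated half-integral point close to the centre. -/
theorem holds_far {a : V → ℤ} {b : ℤ} {K : ℕ}
    (hK : ∀ T : Finset V, T.card ≤ t → (Cl vs q (T₀ ∪ T)).card ≤ K)
    (hfar : ∀ y : V → ℤ, (∀ i, 0 ≤ y i ∧ y i ≤ 2) →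
      (univ.filter (fun i => y i ≠ 1)).card ≤ K → 2 * b ≤ ∑ i, a i * y i) :
    Holds vs ng q T₀ ρ₀ t a b := by
  classical
  rintro A ρ ⟨T, hT, hA, -, -⟩
  refine hfar _ (fun i => ⟨pt_nonneg A ρ i, pt_le_two A ρ i⟩) ?_
  refine (card_le_card ?_).trans (hK T hT)
  intro i hi
  have h1 := (mem_filter.mp hi).2
  rw [← hA]
  by_contra hcon
  exact h1 (by simp [pt, hcon])

/-- The number of indices of `Z` in `A` whose value is the target value. -/
def hits (Z : Finset V) (g : V → Bool) (A : Finset V) (ρ : V → Bool) : ℕ :=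
  ((Z ∩ A).filter (fun i => ρ i = g i)).card

theorem hits_mono {Z : Finset V} {g : V → Bool} {A B : Finset V} {ρ σ : V → Bool}
    (hAB : A ⊆ B) (h : ∀ i ∈ A, σ i = ρ i) : hits Z g A ρ ≤ hits Z g B σ := by
  refine card_le_card ?_
  intro i hi
  obtain ⟨h1, h2⟩ := mem_filter.mp hi
  obtain ⟨h3, h4⟩ := mem_inter.mp h1
  refine mem_filter.mpr ⟨mem_inter.mpr ⟨h3, hAB h4⟩, ?_⟩
  rw [h i h4]
  exact h2

theorem hits_succ {Z : Finset V} {g : V → Bool} {A B : Finset V} {ρ σ : V → Bool}
    (hAB : A ⊆ B) (h : ∀ i ∈ A, σ i = ρ i) {i : V} (hiA : i ∉ A) (hiB : i ∈ B)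
    (hiZ : i ∈ Z) (hg : σ i = g i) : hits Z g A ρ + 1 ≤ hits Z g B σ := by
  have hnot : i ∉ (Z ∩ A).filter (fun i => ρ i = g i) := fun hi =>
    hiA (mem_inter.mp (mem_filter.mp hi).1).2
  unfold hits
  rw [← card_insert_of_notMem hnot]
  refine card_le_card ?_
  intro j hj
  rcases mem_insert.mp hj with rfl | hj
  · exact mem_filter.mpr ⟨mem_inter.mpr ⟨hiZ, hiB⟩, hg⟩
  · obtain ⟨h1, h2⟩ := mem_filter.mp hj
    obtain ⟨h3, h4⟩ := mem_inter.mp h1
    refine mem_filter.mpr ⟨mem_inter.mpr ⟨h3, hAB h4⟩, ?_⟩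
    rw [h j h4]
    exact h2

theorem greedy {κ : Type} (h3 : ∀ c, (vs c).card = 3) {M : ℕ}
    (hI : ∀ T : Finset V, T.card ≤ M → (inside vs (Cl vs q T)).card ≤ q)
    (hC : ∀ T : Finset V, T.card ≤ M → (Cl vs q T).card ≤ 37 * T.card)
    (𝓔 : Finset κ) (Z : κ → Finset V) (g : κ → V → Bool) {w : ℕ}
    (hZ : ∀ e ∈ 𝓔, w ≤ (Z e).card) (hw : w ≤ Fintype.card V) (hV : 0 < Fintype.card V) :
    ∀ t : ℕ, t ≤ M → 74 * t ≤ w → ∃ (T : Finset V) (ρ : V → Bool), T.card ≤ t ∧
      Valid vs ng ρ (Cl vs q T) ∧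
      ∑ e ∈ 𝓔, ((1 : ℝ) / 2) ^ (hits (Z e) (g e) (Cl vs q T) ρ) ≤
        𝓔.card * (1 - w / (8 * Fintype.card V)) ^ t := by
  classical
  intro t
  induction t with
  | zero =>
    intro _ _
    have h0 : Cl vs q (∅ : Finset V) = ∅ := by
      have := hC ∅ (by simp)
      rw [card_empty, mul_zero, Nat.le_zero, card_eq_zero] at this
      exact this
    refine ⟨∅, fun _ => true, by simp, ?_, ?_⟩
    · intro c hc
      rw [h0, subset_empty] at hc
      have := h3 c
      rw [hc] at this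
      simp at this
    · rw [h0]
      simp [hits]
  | succ t ih =>
    intro hM hw74
    obtain ⟨T, ρ, hT, hval, hΦ⟩ := ih (by omega) (by omega)
    set N := Fintype.card V with hN
    set A := Cl vs q T with hA
    have hAcard : A.card ≤ 37 * t := (hC T (by omega)).trans (by omega)
    set wt : κ → ℝ := fun e => ((1 : ℝ) / 2) ^ (hits (Z e) (g e) A ρ) with hwt
    have hwt0 : ∀ e, 0 ≤ wt e := fun e => by positivity
    set Φ := ∑ e ∈ 𝓔, wt e with hΦdef
    have hΦ0 : 0 ≤ Φ := Finset.sum_nonneg (fun e _ => hwt0 e)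
    -- the weight of a literal
    set S : V × Bool → ℝ := fun p => ∑ e ∈ 𝓔, if p.1 ∈ Z e \ A ∧ g e p.1 = p.2 then wt e else 0
      with hS
    have hSsum : ((w : ℝ) / 2) * Φ ≤ ∑ p : V × Bool, S p := by
      have h1 : ∑ p : V × Bool, S p = ∑ e ∈ 𝓔, wt e * ((Z e \ A).card : ℝ) := by
        rw [hS, Finset.sum_comm]
        refine Finset.sum_congr rfl (fun e _ => ?_)
        rw [Fintype.sum_prod_type]
        have h2 : ∀ i : V, (∑ v : Bool, if i ∈ Z e \ A ∧ g e i = v then wt e else 0) =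
            if i ∈ Z e \ A then wt e else 0 := by
          intro i
          by_cases hi : i ∈ Z e \ A
          · simp only [hi, true_and, if_true]
            rw [Finset.sum_ite_eq]
            simp
          · simp [hi]
        rw [Finset.sum_congr rfl (fun i _ => h2 i), ← Finset.sum_filter, Finset.sum_const,
          nsmul_eq_mul, mul_comm]
        congr 3
        ext i
        simp
      rw [h1, hΦdef, Finset.mul_sum]
      refine Finset.sum_le_sum (fun e he => ?_)
      rw [mul_comm]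
      refine mul_le_mul_of_nonneg_left ?_ (hwt0 e)
      have h2 := hZ e he
      have h4 : (Z e).card ≤ (Z e \ A).card + A.card := card_le_card_sdiff_add_card
      have h5 : w ≤ 2 * (Z e \ A).card := by omega
      have h6 : (w : ℝ) ≤ 2 * ((Z e \ A).card : ℝ) := by exact_mod_cast h5
      linarith
    have : Nonempty V := Fintype.card_pos_iff.mp hV
    have hNpos : (0 : ℝ) < N := by exact_mod_cast hV
    obtain ⟨⟨i, v⟩, -, hiv⟩ : ∃ p ∈ (univ : Finset (V × Bool)), (w : ℝ) * Φ / (4 * N) ≤ S p := by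
      refine Finset.exists_le_of_sum_le (f := fun _ => (w : ℝ) * Φ / (4 * N)) univ_nonempty ?_
      rw [Finset.sum_const, card_univ, Fintype.card_prod, Fintype.card_bool, nsmul_eq_mul]
      refine le_trans (le_of_eq ?_) hSsum
      push_cast
      rw [← hN]
      field_simp
      ring
    set B := Cl vs q (insert i T) with hB
    have hcardT : (insert i T).card ≤ t + 1 := (card_insert_le i T).trans (by omega)
    have hAB : A ⊆ B := Cl_mono (subset_insert _ _)
    have hiB : i ∈ B := subset_Cl q _ (mem_insert_self _ _)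
    obtain ⟨σ, hσA, hv1, hv2⟩ := exists_ext (fun c => (h3 c).le) (closed_Cl q T)
      (hI (insert i T) (by omega)) hval
    set τ : V → Bool := if σ i = v then σ else flip A σ with hτ
    have hτA : ∀ j ∈ A, τ j = ρ j := by
      intro j hj
      rw [hτ]
      split_ifs
      · exact hσA j hj
      · unfold flip
        rw [if_pos hj]
        exact hσA j hj
    have hτv : Valid vs ng τ B := by
      rw [hτ]
      split_ifs
      · exact hv1
      · exact hv2
    have hτi : i ∉ A → τ i = v := by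
      intro hi
      rw [hτ]
      split_ifs with h
      · exact h
      · unfold flip
        rw [if_neg hi]
        cases hs : σ i <;> cases v <;> simp_all
    refine ⟨insert i T, τ, hcardT, hτv, ?_⟩
    have hle : ∀ e ∈ 𝓔, ((1 : ℝ) / 2) ^ (hits (Z e) (g e) B τ) ≤
        wt e - (if i ∈ Z e \ A ∧ g e i = v then wt e else 0) / 2 := by
      intro e he
      split_ifs with h
      · obtain ⟨h1, h2⟩ := h
        obtain ⟨h1, h4⟩ := mem_sdiff.mp h1
        have h5 := hits_succ (g := g e) (ρ := ρ) hAB hτA h4 hiB h1 ((hτi h4).trans h2.symm)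
        have h6 : ((1 : ℝ) / 2) ^ (hits (Z e) (g e) B τ) ≤
            ((1 : ℝ) / 2) ^ (hits (Z e) (g e) A ρ + 1) :=
          pow_le_pow_of_le_one (by norm_num) (by norm_num) h5
        rw [pow_succ] at h6
        simp only [hwt]
        linarith
      · have h5 := hits_mono (Z := Z e) (g := g e) (ρ := ρ) hAB hτA
        have h6 : ((1 : ℝ) / 2) ^ (hits (Z e) (g e) B τ) ≤
            ((1 : ℝ) / 2) ^ (hits (Z e) (g e) A ρ) :=
          pow_le_pow_of_le_one (by norm_num) (by norm_num) h5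
        simp only [hwt]
        linarith
    have hsum := Finset.sum_le_sum hle
    rw [Finset.sum_sub_distrib, ← Finset.sum_div] at hsum
    have hSv : S (i, v) = ∑ e ∈ 𝓔, if i ∈ Z e \ A ∧ g e i = v then wt e else 0 := rfl
    rw [← hSv, ← hΦdef] at hsum
    have hfac : 0 ≤ 1 - (w : ℝ) / (8 * N) := by
      rw [sub_nonneg, div_le_one (by positivity)]
      have : (w : ℝ) ≤ N := by exact_mod_cast hw
      linarith
    calc _ ≤ Φ - S (i, v) / 2 := hsum
      _ ≤ Φ - ((w : ℝ) * Φ / (4 * N)) / 2 := by linarith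
      _ = Φ * (1 - w / (8 * N)) := by
        field_simp
        ring
      _ ≤ (𝓔.card * (1 - w / (8 * N)) ^ t) * (1 - w / (8 * N)) :=
        mul_le_mul_of_nonneg_right hΦ hfac
      _ = 𝓔.card * (1 - w / (8 * N)) ^ (t + 1) := by
        rw [pow_succ]
        ring

/-- All inequalities of a small set get many hits. -/
theorem exists_root {κ : Type} (h3 : ∀ c, (vs c).card = 3) {M : ℕ}
    (hI : ∀ T : Finset V, T.card ≤ M → (inside vs (Cl vs q T)).card ≤ q)
    (hC : ∀ T : Finset V, T.card ≤ M → (Cl vs q T).card ≤ 37 * T.card)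
    (𝓔 : Finset κ) (Z : κ → Finset V) (g : κ → V → Bool) {w h t : ℕ}
    (hZ : ∀ e ∈ 𝓔, w ≤ (Z e).card) (hw : w ≤ Fintype.card V) (hV : 0 < Fintype.card V)
    (htM : t ≤ M) (htw : 74 * t ≤ w)
    (hsmall : (𝓔.card : ℝ) * (1 - w / (8 * Fintype.card V)) ^ t * 2 ^ h < 2) :
    ∃ (T : Finset V) (ρ : V → Bool), T.card ≤ t ∧ Valid vs ng ρ (Cl vs q T) ∧
      ∀ e ∈ 𝓔, h ≤ hits (Z e) (g e) (Cl vs q T) ρ := by
  classical
  obtain ⟨T, ρ, hT, hval, hsum⟩ := greedy (ng := ng) h3 hI hC 𝓔 Z g hZ hw hV t htM htw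
  refine ⟨T, ρ, hT, hval, fun e he => ?_⟩
  by_contra hcon
  rw [not_le] at hcon
  set x := hits (Z e) (g e) (Cl vs q T) ρ with hx
  have h1 : ((1 : ℝ) / 2) ^ x ≤
      ∑ e ∈ 𝓔, ((1 : ℝ) / 2) ^ (hits (Z e) (g e) (Cl vs q T) ρ) :=
    Finset.single_le_sum (f := fun e => ((1 : ℝ) / 2) ^ (hits (Z e) (g e) (Cl vs q T) ρ))
      (fun _ _ => pow_nonneg (by norm_num) _) he
  have h2 := h1.trans hsum
  have h4 : ((1 : ℝ) / 2) ^ x * 2 ^ h < 2 :=
    lt_of_le_of_lt (mul_le_mul_of_nonneg_right h2 (by positivity)) hsmall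
  have h5 : (2 : ℝ) ^ (x + 1) ≤ 2 ^ h := pow_le_pow_right₀ (by norm_num) hcon
  have h6 : ((1 : ℝ) / 2) ^ x * 2 ^ (x + 1) = 2 := by
    rw [pow_succ, ← mul_assoc, ← mul_pow]
    norm_num
  have h7 : ((1 : ℝ) / 2) ^ x * 2 ^ (x + 1) ≤ ((1 : ℝ) / 2) ^ x * 2 ^ h :=
    mul_le_mul_of_nonneg_left h5 (by positivity)
  linarith

end MP86d903
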