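import Pool.Agent.Helper80.CP.Closure

/-!
Splitting lemmas for closed sets of variables (MP_86d903_lc).
-/

open Finset

namespace MP86d903

variable {ι V : Type} [DecidableEq ι] [Fintype V] [DecidableEq V]

/-- The literal of the clause `c` at the variable `i` is true under `σ`. -/
def Lit (ng : ι → Finset V) (σ : V → Bool) (c : ι) (i : V) : Prop :=
  σ i = !decide (i ∈ ng c)

instance (ng : ι → Finset V) (σ : V → Bool) (c : ι) (i : V) : Decidable (Lit ng σ c i) := by
  unfold Lit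
  infer_instance

/-- The assignment `σ` satisfies all clauses with variables in `A`. -/
def Valid (vs ng : ι → Finset V) (σ : V → Bool) (A : Finset V) : Prop :=
  ∀ c, vs c ⊆ A → ∃ i ∈ vs c, Lit ng σ c i

/-- Complement outside `A`. -/
def flip (A : Finset V) (σ : V → Bool) : V → Bool := fun i => if i ∈ A then σ i else !σ i

/-- The half-integral point (doubled) given by an assignment on `A`. -/
def pt (A : Finset V) (σ : V → Bool) : V → ℤ :=
  fun i => if i ∈ A then (if σ i then 2 else 0) else 1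

variable {vs ng : ι → Finset V}

theorem exists_unique_nbr {A' : Finset V} {S : Finset ι}
    (hS : ∑ c ∈ S, (vs c \ A').card < 2 * (S.biUnion vs \ A').card) :
    ∃ c ∈ S, ∃ y ∈ vs c \ A', ∀ c' ∈ S, c' ≠ c → y ∉ vs c' := by
  classical
  by_contra hcon
  push Not at hcon
  have h1 : ∀ c ∈ S, (vs c \ A').card =
      ∑ y ∈ S.biUnion vs \ A', if y ∈ vs c then 1 else 0 := by
    intro c hc
    rw [← Finset.card_filter]
    congr 1
    ext y
    simp only [mem_sdiff, mem_filter, mem_biUnion]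
    constructor
    · rintro ⟨h1, h2⟩
      exact ⟨⟨⟨c, hc, h1⟩, h2⟩, h1⟩
    · rintro ⟨⟨-, h2⟩, h1⟩
      exact ⟨h1, h2⟩
  rw [Finset.sum_congr rfl h1, Finset.sum_comm] at hS
  have h2 : ∀ y ∈ S.biUnion vs \ A', 2 ≤ ∑ c ∈ S, if y ∈ vs c then 1 else 0 := by
    intro y hy
    obtain ⟨hy1, hy2⟩ := mem_sdiff.mp hy
    obtain ⟨c, hc, hyc⟩ := mem_biUnion.mp hy1
    obtain ⟨c', hc', hne, hyc'⟩ := hcon c hc y (mem_sdiff.mpr ⟨hyc, hy2⟩)
    rw [← Finset.card_filter]
    have hsub : ({c, c'} : Finset ι) ⊆ S.filter (fun c => y ∈ vs c) := by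
      intro x hx
      simp only [mem_insert, mem_singleton] at hx
      rcases hx with rfl | rfl
      · exact mem_filter.mpr ⟨hc, hyc⟩
      · exact mem_filter.mpr ⟨hc', hyc'⟩
    have := card_le_card hsub
    rwa [card_pair (Ne.symm hne)] at this
  have h3 := Finset.sum_le_sum h2
  simp only [sum_const, smul_eq_mul] at h3
  omega

theorem exists_split (A' : Finset V) (ρ : V → Bool) (𝒮 : Finset ι)
    (h1 : ∀ S ⊆ 𝒮, S.Nonempty → ∃ c ∈ S, ∃ y ∈ vs c \ A', ∀ c' ∈ S, c' ≠ c → y ∉ vs c')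
    (h2 : ∀ c ∈ 𝒮, 2 ≤ (vs c \ A').card) :
    ∃ σ : V → Bool, (∀ i ∈ A', σ i = ρ i) ∧
      ∀ c ∈ 𝒮, ∃ i ∈ vs c \ A', ∃ j ∈ vs c \ A', Lit ng σ c i ∧ ¬ Lit ng σ c j := by
  induction 𝒮 using Finset.strongInduction with
  | H 𝒮 ih =>
    rcases 𝒮.eq_empty_or_nonempty with rfl | hne
    · exact ⟨ρ, fun _ _ => rfl, fun c hc => absurd hc (notMem_empty c)⟩
    obtain ⟨c, hc, y, hy, huniq⟩ := h1 𝒮 (subset_refl _) hne
    obtain ⟨σ', hσ'A, hσ'⟩ := ih (𝒮.erase c) (erase_ssubset hc)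
      (fun S hS hSne => h1 S (hS.trans (erase_subset _ _)) hSne)
      (fun c' hc' => h2 c' (mem_of_mem_erase hc'))
    -- another variable of `c` outside `A'`
    obtain ⟨z, hz, hzy⟩ : ∃ z ∈ vs c \ A', z ≠ y := by
      have : 1 < (vs c \ A').card := h2 c hc
      obtain ⟨z, hz, hne⟩ := exists_mem_ne this y
      exact ⟨z, hz, hne⟩
    -- the new value at y
    set v : Bool := if Lit ng σ' c z then decide (y ∈ ng c) else !decide (y ∈ ng c) with hv
    refine ⟨Function.update σ' y v, ?_, ?_⟩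
    · intro i hi
      have : i ≠ y := by
        rintro rfl
        exact (mem_sdiff.mp hy).2 hi
      rw [Function.update_of_ne this]
      exact hσ'A i hi
    · intro c' hc'
      by_cases hcc : c' = c
      · subst hcc
        have hz' : Lit ng (Function.update σ' y v) c' z ↔ Lit ng σ' c' z := by
          unfold Lit
          rw [Function.update_of_ne hzy]
        by_cases hl : Lit ng σ' c' z
        · refine ⟨z, hz, y, hy, hz'.mpr hl, ?_⟩
          unfold Lit
          rw [Function.update_self, hv, if_pos hl]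
          cases decide (y ∈ ng c') <;> simp
        · refine ⟨y, hy, z, hz, ?_, fun h => hl (hz'.mp h)⟩
          unfold Lit
          rw [Function.update_self, hv, if_neg hl]
      · obtain ⟨i, hi, j, hj, hli, hlj⟩ := hσ' c' (mem_erase.mpr ⟨hcc, hc'⟩)
        have hy' : y ∉ vs c' := huniq c' hc' hcc
        have hiy : i ≠ y := by
          rintro rfl
          exact hy' (mem_sdiff.mp hi).1
        have hjy : j ≠ y := by
          rintro rfl
          exact hy' (mem_sdiff.mp hj).1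
        refine ⟨i, hi, j, hj, ?_, ?_⟩
        · unfold Lit at hli ⊢
          rwa [Function.update_of_ne hiy]
        · unfold Lit at hlj ⊢
          rwa [Function.update_of_ne hjy]

theorem lit_flip {A : Finset V} {σ : V → Bool} {c : ι} {j : V} (hj : j ∉ A)
    (h : ¬ Lit ng σ c j) : Lit ng (flip A σ) c j := by
  unfold Lit flip at *
  rw [if_neg hj]
  cases hd : decide (j ∈ ng c) <;> cases hs : σ j <;> simp_all

theorem lit_congr {σ τ : V → Bool} {c : ι} {i : V} (h : σ i = τ i) (hl : Lit ng σ c i) :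
    Lit ng τ c i := by
  unfold Lit at *
  rw [← h]
  exact hl

/-- Extension of a valid assignment to a larger set, together with its complement. -/
theorem exists_ext [Fintype ι] {q : ℕ} {A B : Finset V} {ρ : V → Bool}
    (h3 : ∀ c, (vs c).card ≤ 3) (hA : Closed vs q A)
    (hB : (inside vs B).card ≤ q) (hρ : Valid vs ng ρ A) :
    ∃ σ : V → Bool, (∀ i ∈ A, σ i = ρ i) ∧ Valid vs ng σ B ∧ Valid vs ng (flip A σ) B := by
  classical
  set 𝒮 := inside vs B \ inside vs A with h𝒮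
  have hnot : ∀ c ∈ 𝒮, ¬ vs c ⊆ A := by
    intro c hc h
    exact (mem_sdiff.mp hc).2 (mem_inside.mpr h)
  have hcl : ∀ S ⊆ 𝒮, S.Nonempty → 5 * S.card < 3 * (S.biUnion vs \ A).card := by
    intro S hS hne
    refine hA S hne ?_ (fun c hc => hnot c (hS hc))
    exact (card_le_card (hS.trans sdiff_subset)).trans hB
  obtain ⟨σ, hσA, hσ⟩ := exists_split (ng := ng) A ρ 𝒮 (by
      intro S hS hne
      have h1 := hcl S hS hne
      have h2 : ∑ c ∈ S, (vs c \ A).card ≤ S.card * 3 := by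
        refine Finset.sum_le_card_nsmul _ _ _ (fun c _ => ?_)
        exact (card_le_card sdiff_subset).trans (h3 c)
      exact exists_unique_nbr (vs := vs) (A' := A) (S := S) (by omega)) (by
      intro c hc
      have h1 := hcl {c} (singleton_subset_iff.mpr hc) (singleton_nonempty c)
      rw [card_singleton, singleton_biUnion] at h1
      omega)
  refine ⟨σ, hσA, ?_, ?_⟩
  · intro c hc
    by_cases hcA : vs c ⊆ A
    · obtain ⟨i, hi, hl⟩ := hρ c hcA
      exact ⟨i, hi, lit_congr (hσA i (hcA hi)).symm hl⟩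
    · obtain ⟨i, hi, j, hj, hli, hlj⟩ := hσ c (mem_sdiff.mpr ⟨mem_inside.mpr hc,
        fun h => hcA (mem_inside.mp h)⟩)
      exact ⟨i, (mem_sdiff.mp hi).1, hli⟩
  · intro c hc
    by_cases hcA : vs c ⊆ A
    · obtain ⟨i, hi, hl⟩ := hρ c hcA
      refine ⟨i, hi, lit_congr ?_ hl⟩
      unfold flip
      rw [if_pos (hcA hi)]
      exact (hσA i (hcA hi)).symm
    · obtain ⟨i, hi, j, hj, hli, hlj⟩ := hσ c (mem_sdiff.mpr ⟨mem_inside.mpr hc,
        fun h => hcA (mem_inside.mp h)⟩)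
      exact ⟨j, (mem_sdiff.mp hj).1, lit_flip (mem_sdiff.mp hj).2 hlj⟩

theorem pt_add_pt_flip {A B : Finset V} {σ ρ : V → Bool} (hAB : A ⊆ B)
    (h : ∀ i ∈ A, σ i = ρ i) (i : V) :
    pt B σ i + pt B (flip A σ) i = 2 * pt A ρ i := by
  unfold pt flip
  by_cases hA : i ∈ A
  · rw [if_pos (hAB hA), if_pos (hAB hA), if_pos hA, if_pos hA, h i hA]
    ring
  · simp only [if_neg hA]
    by_cases hB : i ∈ B
    · simp only [if_pos hB]
      cases σ i <;> simp
    · simp only [if_neg hB]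
      ring

/-- The core of the step lemma. -/
theorem step_core [Fintype ι] {A B Q : Finset V} {ρ ρQ : V → Bool} {𝒮 : Finset ι}
    (a : V → ℤ) (hQA : Disjoint A Q) (hB : A ∪ Q ⊆ B) (hρQ : ∀ i ∈ A, ρQ i = ρ i)
    (h1 : ∀ S ⊆ 𝒮, S.Nonempty →
      ∃ c ∈ S, ∃ y ∈ vs c \ (A ∪ Q), ∀ c' ∈ S, c' ≠ c → y ∉ vs c')
    (h2 : ∀ c ∈ 𝒮, 2 ≤ (vs c \ (A ∪ Q)).card)
    (hsat : ∀ c, vs c ⊆ B → c ∉ 𝒮 → ∃ i ∈ vs c, i ∈ A ∪ Q ∧ Lit ng ρQ c i)
    (hu : ∑ i ∈ Q, a i * (if ρQ i then 1 else -1) ≤ -1) :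
    ∃ σ : V → Bool, (∀ i ∈ A, σ i = ρ i) ∧ Valid vs ng σ B ∧
      ∑ i, a i * pt B σ i < ∑ i, a i * pt A ρ i := by
  classical
  obtain ⟨σ, hσ, hsp⟩ := exists_split (ng := ng) (A ∪ Q) ρQ 𝒮 h1 h2
  have hσA : ∀ i ∈ A, σ i = ρ i := fun i hi =>
    (hσ i (mem_union_left _ hi)).trans (hρQ i hi)
  have hv1 : Valid vs ng σ B := by
    intro c hc
    by_cases hcS : c ∈ 𝒮
    · obtain ⟨i, hi, j, hj, hli, hlj⟩ := hsp c hcS
      exact ⟨i, (mem_sdiff.mp hi).1, hli⟩
    · obtain ⟨i, hi, hiA, hl⟩ := hsat c hc hcS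
      exact ⟨i, hi, lit_congr (hσ i hiA).symm hl⟩
  have hv2 : Valid vs ng (flip (A ∪ Q) σ) B := by
    intro c hc
    by_cases hcS : c ∈ 𝒮
    · obtain ⟨i, hi, j, hj, hli, hlj⟩ := hsp c hcS
      exact ⟨j, (mem_sdiff.mp hj).1, lit_flip (mem_sdiff.mp hj).2 hlj⟩
    · obtain ⟨i, hi, hiA, hl⟩ := hsat c hc hcS
      refine ⟨i, hi, lit_congr ?_ hl⟩
      unfold flip
      rw [if_pos hiA]
      exact (hσ i hiA).symm
  have hpt : ∀ i, pt B σ i + pt B (flip (A ∪ Q) σ) i =
      2 * pt A ρ i + 2 * (if i ∈ Q then (if ρQ i then 1 else -1) else 0) := by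
    intro i
    have h0 := pt_add_pt_flip hB hσ i
    rw [h0]
    unfold pt
    by_cases hiA : i ∈ A
    · have hiQ : i ∉ Q := fun h => (Finset.disjoint_left.mp hQA) hiA h
      rw [if_pos (mem_union_left _ hiA), if_pos hiA, if_neg hiQ, hρQ i hiA]
      ring
    · by_cases hiQ : i ∈ Q
      · rw [if_pos (mem_union_right _ hiQ), if_neg hiA, if_pos hiQ]
        cases ρQ i <;> simp
      · rw [if_neg (by simp [hiA, hiQ]), if_neg hiA, if_neg hiQ]
        ring
  have hsum : ∑ i, a i * pt B σ i + ∑ i, a i * pt B (flip (A ∪ Q) σ) i =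
      2 * ∑ i, a i * pt A ρ i + 2 * ∑ i ∈ Q, a i * (if ρQ i then 1 else -1) := by
    rw [← sum_add_distrib]
    have : ∀ i, a i * pt B σ i + a i * pt B (flip (A ∪ Q) σ) i =
        2 * (a i * pt A ρ i) + 2 * (if i ∈ Q then a i * (if ρQ i then 1 else -1) else 0) := by
      intro i
      have := hpt i
      rw [← mul_add, this]
      by_cases hiQ : i ∈ Q
      · rw [if_pos hiQ, if_pos hiQ]
        ring
      · rw [if_neg hiQ, if_neg hiQ]
        ring
    rw [sum_congr rfl (fun i _ => this i), sum_add_distrib, ← mul_sum, ← mul_sum]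
    congr 2
    rw [← sum_filter]
    congr 1
    ext i
    simp
  by_cases hlt : ∑ i, a i * pt B σ i < ∑ i, a i * pt A ρ i
  · exact ⟨σ, hσA, hv1, hlt⟩
  · refine ⟨flip (A ∪ Q) σ, ?_, hv2, by omega⟩
    intro i hi
    unfold flip
    rw [if_pos (mem_union_left _ hi)]
    exact hσA i hi

end MP86d903
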