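import Pool.Agent.Helper80.CP.Split

/-!
The step lemma: one more variable lowers the value of a linear form which is odd
outside a closed set (MP_86d903_lc).
-/

open Finset

namespace MP86d903

variable {ι V : Type} [DecidableEq ι] [Fintype V] [DecidableEq V]
  {vs ng : ι → Finset V}

/-- A clause not inside `A`, with exactly two variables outside and not satisfied on `A`. -/
def Crit (vs ng : ι → Finset V) (A : Finset V) (ρ : V → Bool) (c : ι) : Prop :=
  (vs c \ A).card = 2 ∧ ∀ k ∈ vs c, k ∈ A → ¬ Lit ng ρ c k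

open Classical in
/-- The clauses inside `B`, not inside `A` and not satisfied on `A`. -/
noncomputable def Open [Fintype ι] (vs ng : ι → Finset V) (A B : Finset V) (ρ : V → Bool) :
    Finset ι :=
  (inside vs B \ inside vs A).filter (fun c => ∀ k ∈ vs c, k ∈ A → ¬ Lit ng ρ c k)

theorem mem_Open [Fintype ι] {A B : Finset V} {ρ : V → Bool} {c : ι} :
    c ∈ Open vs ng A B ρ ↔ vs c ⊆ B ∧ ¬ vs c ⊆ A ∧ ∀ k ∈ vs c, k ∈ A → ¬ Lit ng ρ c k := by
  classical
  simp [Open, mem_inside, and_assoc]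

theorem Crit.disjoint {q : ℕ} {A : Finset V} {ρ : V → Bool} (hq : 2 ≤ q)
    (hA : Closed vs q A) {c c' : ι} (hc : Crit vs ng A ρ c) (hc' : Crit vs ng A ρ c')
    (hne : c ≠ c') : Disjoint (vs c \ A) (vs c' \ A) := by
  classical
  have hnot : ∀ d, (vs d \ A).card = 2 → ¬ vs d ⊆ A := by
    intro d hd h
    rw [sdiff_eq_empty_iff_subset.mpr h] at hd
    simp at hd
  have h1 := hA {c, c'} (insert_nonempty _ _) (by rw [card_pair hne]; exact hq) (by
    intro d hd
    simp only [mem_insert, mem_singleton] at hd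
    rcases hd with rfl | rfl
    · exact hnot _ hc.1
    · exact hnot _ hc'.1)
  rw [card_pair hne] at h1
  have h2 : ({c, c'} : Finset ι).biUnion vs \ A = (vs c \ A) ∪ (vs c' \ A) := by
    rw [biUnion_insert, singleton_biUnion, union_sdiff_distrib]
  rw [h2] at h1
  have h3 := card_union_add_card_inter (vs c \ A) (vs c' \ A)
  have h4 := hc.1
  have h5 := hc'.1
  rw [disjoint_iff_inter_eq_empty, ← card_eq_zero]
  omega

theorem step_pair [Fintype ι] {q : ℕ} {A B : Finset V} {ρ : V → Bool}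
    (h3 : ∀ c, (vs c).card = 3) (hA : Closed vs q A)
    (hρ : Valid vs ng ρ A) (a : V → ℤ) {c₀ : ι} (hc₀ : Crit vs ng A ρ c₀)
    {x y : V} (hxy : x ≠ y) (hQ : vs c₀ \ A = {x, y}) (hodd : Odd (a x + a y))
    (hB : Closed vs q B) (hAB : A ⊆ B) (hx : x ∈ B) (hBq : (inside vs B).card ≤ q)
    (hq : 1 ≤ q) :
    ∃ σ : V → Bool, (∀ i ∈ A, σ i = ρ i) ∧ Valid vs ng σ B ∧
      ∑ i, a i * pt B σ i < ∑ i, a i * pt A ρ i := by
  classical
  have hxmem : x ∈ vs c₀ \ A := by rw [hQ]; simp
  have hymem : y ∈ vs c₀ \ A := by rw [hQ]; simp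
  have hxc := (mem_sdiff.mp hxmem).1
  have hyc := (mem_sdiff.mp hymem).1
  have hxA := (mem_sdiff.mp hxmem).2
  have hyA := (mem_sdiff.mp hymem).2
  have hc₀A : ¬ vs c₀ ⊆ A := fun h => hxA (h hxc)
  have hc₀B : vs c₀ ⊆ B := by
    by_contra hcon
    have h1 := hB {c₀} (singleton_nonempty _) (by rw [card_singleton]; exact hq) (by
      intro c hc
      rw [mem_singleton] at hc
      rw [hc]
      exact hcon)
    rw [card_singleton, singleton_biUnion] at h1
    have h2 : vs c₀ \ B ⊆ {y} := by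
      intro z hz
      obtain ⟨hz1, hz2⟩ := mem_sdiff.mp hz
      have : z ∈ vs c₀ \ A := mem_sdiff.mpr ⟨hz1, fun h => hz2 (hAB h)⟩
      rw [hQ] at this
      simp only [mem_insert, mem_singleton] at this
      rcases this with rfl | rfl
      · exact absurd hx hz2
      · simp
    have h4 := card_le_card h2
    rw [card_singleton] at h4
    omega
  have hyB : y ∈ B := hc₀B hyc
  set 𝒮 := (Open vs ng A B ρ).erase c₀ with h𝒮
  have hSq : ∀ S ⊆ 𝒮, S.Nonempty → 5 * S.card ≤ 3 * (S.biUnion vs \ (A ∪ {x, y})).card := by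
    intro S hS hne
    have hcS : c₀ ∉ S := fun h => (mem_erase.mp (hS h)).1 rfl
    have hins : insert c₀ S ⊆ inside vs B := by
      intro c hc
      rcases mem_insert.mp hc with rfl | hc
      · exact mem_inside.mpr hc₀B
      · exact mem_inside.mpr (mem_Open.mp (mem_of_mem_erase (hS hc))).1
    have h1 := hA (insert c₀ S) (insert_nonempty _ _) ((card_le_card hins).trans hBq) (by
      intro c hc
      rcases mem_insert.mp hc with rfl | hc
      · exact hc₀A
      · exact (mem_Open.mp (mem_of_mem_erase (hS hc))).2.1)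
    rw [card_insert_of_notMem hcS, biUnion_insert, union_sdiff_distrib, hQ] at h1
    have h2 : ({x, y} : Finset V) ∪ (S.biUnion vs \ A) ⊆
        {x, y} ∪ (S.biUnion vs \ (A ∪ {x, y})) := by
      intro z hz
      rcases mem_union.mp hz with hz | hz
      · exact mem_union_left _ hz
      · by_cases hzQ : z ∈ ({x, y} : Finset V)
        · exact mem_union_left _ hzQ
        · refine mem_union_right _ (mem_sdiff.mpr ⟨(mem_sdiff.mp hz).1, fun h => ?_⟩)
          rcases mem_union.mp h with h | h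
          · exact (mem_sdiff.mp hz).2 h
          · exact hzQ h
    have h4 := (card_le_card h2).trans (card_union_le _ _)
    rw [card_pair hxy] at h4
    omega
  have hkey : ∀ (ρQ : V → Bool), (∀ i ∈ A, ρQ i = ρ i) →
      (∃ i ∈ vs c₀, i ∈ A ∪ {x, y} ∧ Lit ng ρQ c₀ i) →
      ∑ i ∈ ({x, y} : Finset V), a i * (if ρQ i then 1 else -1) ≤ -1 →
      ∃ σ : V → Bool, (∀ i ∈ A, σ i = ρ i) ∧ Valid vs ng σ B ∧
        ∑ i, a i * pt B σ i < ∑ i, a i * pt A ρ i := by
    intro ρQ hρQ hsat hu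
    refine step_core (Q := {x, y}) (ρQ := ρQ) (𝒮 := 𝒮) a ?_ ?_ hρQ ?_ ?_ ?_ hu
    · rw [Finset.disjoint_left]
      intro z hz hz'
      simp only [mem_insert, mem_singleton] at hz'
      rcases hz' with rfl | rfl
      · exact hxA hz
      · exact hyA hz
    · intro z hz
      rcases mem_union.mp hz with hz | hz
      · exact hAB hz
      · simp only [mem_insert, mem_singleton] at hz
        rcases hz with rfl | rfl
        · exact hx
        · exact hyB
    · intro S hS hne
      have h1 := hSq S hS hne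
      have h2 : ∑ c ∈ S, (vs c \ (A ∪ {x, y})).card ≤ S.card * 3 := by
        refine Finset.sum_le_card_nsmul _ _ _ (fun c _ => ?_)
        exact (card_le_card sdiff_subset).trans (h3 c).le
      have h4 := card_pos.mpr hne
      exact exists_unique_nbr (vs := vs) (A' := A ∪ {x, y}) (S := S) (by omega)
    · intro c hc
      have h1 := hSq {c} (singleton_subset_iff.mpr hc) (singleton_nonempty c)
      rw [card_singleton, singleton_biUnion] at h1
      omega
    · intro c hcB hcS
      by_cases hcA : vs c ⊆ A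
      · obtain ⟨i, hi, hl⟩ := hρ c hcA
        exact ⟨i, hi, mem_union_left _ (hcA hi), lit_congr (hρQ i (hcA hi)).symm hl⟩
      · by_cases hk : ∀ k ∈ vs c, k ∈ A → ¬ Lit ng ρ c k
        · have : c ∈ Open vs ng A B ρ := mem_Open.mpr ⟨hcB, hcA, hk⟩
          have hcc : c = c₀ := by
            by_contra hcc
            exact hcS (mem_erase.mpr ⟨hcc, this⟩)
          rw [hcc]
          exact hsat
        · push Not at hk
          obtain ⟨k, hk, hkA, hl⟩ := hk
          exact ⟨k, hk, mem_union_left _ hkA, lit_congr (hρQ k hkA).symm hl⟩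
  have hyx : y ≠ x := Ne.symm hxy
  -- the two options
  set ρ1 : V → Bool := fun i => if i = x then !decide (x ∈ ng c₀) else
    if i = y then decide (y ∈ ng c₀) else ρ i with hρ1
  set ρ2 : V → Bool := fun i => if i = x then decide (x ∈ ng c₀) else
    if i = y then !decide (y ∈ ng c₀) else ρ i with hρ2
  have hA1 : ∀ i ∈ A, ρ1 i = ρ i := by
    intro i hi
    have h1 : i ≠ x := by rintro rfl; exact hxA hi
    have h2 : i ≠ y := by rintro rfl; exact hyA hi
    simp [hρ1, h1, h2]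
  have hA2 : ∀ i ∈ A, ρ2 i = ρ i := by
    intro i hi
    have h1 : i ≠ x := by rintro rfl; exact hxA hi
    have h2 : i ≠ y := by rintro rfl; exact hyA hi
    simp [hρ2, h1, h2]
  have hs1 : ∃ i ∈ vs c₀, i ∈ A ∪ {x, y} ∧ Lit ng ρ1 c₀ i :=
    ⟨x, hxc, by simp, by simp [Lit, hρ1]⟩
  have hs2 : ∃ i ∈ vs c₀, i ∈ A ∪ {x, y} ∧ Lit ng ρ2 c₀ i :=
    ⟨y, hyc, by simp, by simp [Lit, hρ2, hyx]⟩
  have hsum1 : ∑ i ∈ ({x, y} : Finset V), a i * (if ρ1 i then 1 else -1) =
      - ∑ i ∈ ({x, y} : Finset V), a i * (if ρ2 i then 1 else -1) := by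
    rw [sum_pair hxy, sum_pair hxy]
    simp only [hρ1, hρ2, if_true, if_neg hyx]
    cases decide (x ∈ ng c₀) <;> cases decide (y ∈ ng c₀) <;> simp <;> ring
  have hodd1 : Odd (∑ i ∈ ({x, y} : Finset V), a i * (if ρ1 i then 1 else -1)) := by
    rw [sum_pair hxy]
    obtain ⟨k, hk⟩ := hodd
    cases ρ1 x <;> cases ρ1 y <;> simp
    · exact ⟨-k - 1, by omega⟩
    · exact ⟨k - a x, by omega⟩
    · exact ⟨k - a y, by omega⟩
    · exact ⟨k, by omega⟩
  obtain ⟨k, hk⟩ := hodd1
  by_cases hneg : ∑ i ∈ ({x, y} : Finset V), a i * (if ρ1 i then 1 else -1) ≤ -1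
  · exact hkey ρ1 hA1 hs1 hneg
  · exact hkey ρ2 hA2 hs2 (by omega)

theorem step_single [Fintype ι] {q : ℕ} {A B : Finset V} {ρ : V → Bool}
    (h3 : ∀ c, (vs c).card = 3) (hA : Closed vs q A)
    (hρ : Valid vs ng ρ A) (a : V → ℤ) {j : V} (hjA : j ∉ A)
    (hj : ∀ c, Crit vs ng A ρ c → j ∉ vs c) (hodd : Odd (a j))
    (hAB : A ⊆ B) (hjB : j ∈ B) (hBq : (inside vs B).card ≤ q) :
    ∃ σ : V → Bool, (∀ i ∈ A, σ i = ρ i) ∧ Valid vs ng σ B ∧
      ∑ i, a i * pt B σ i < ∑ i, a i * pt A ρ i := by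
  classical
  set 𝒮 := Open vs ng A B ρ with h𝒮
  have hcl : ∀ S ⊆ 𝒮, S.Nonempty → 5 * S.card < 3 * (S.biUnion vs \ A).card := by
    intro S hS hne
    refine hA S hne ?_ (fun c hc => (mem_Open.mp (hS hc)).2.1)
    refine (card_le_card ?_).trans hBq
    intro c hc
    exact mem_inside.mpr (mem_Open.mp (hS hc)).1
  have hcard3 : ∀ c ∈ 𝒮, j ∈ vs c → (vs c \ A).card = 3 := by
    intro c hc hjc
    have h1 := hcl {c} (singleton_subset_iff.mpr hc) (singleton_nonempty c)
    rw [card_singleton, singleton_biUnion] at h1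
    have h2 : (vs c \ A).card ≤ 3 := (card_le_card sdiff_subset).trans (h3 c).le
    have h4 : (vs c \ A).card ≠ 2 := by
      intro h
      exact hj c ⟨h, (mem_Open.mp hc).2.2⟩ hjc
    omega
  have herase : ∀ X : Finset V, X \ (A ∪ {j}) = (X \ A).erase j := by
    intro X
    ext z
    simp only [mem_sdiff, mem_union, mem_singleton, mem_erase]
    tauto
  set ρQ : V → Bool := fun i => if i = j then decide (a j < 0) else ρ i with hρQ
  have hAQ : ∀ i ∈ A, ρQ i = ρ i := by
    intro i hi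
    have h1 : i ≠ j := by rintro rfl; exact hjA hi
    simp [hρQ, h1]
  refine step_core (Q := {j}) (ρQ := ρQ) (𝒮 := 𝒮) a ?_ ?_ hAQ ?_ ?_ ?_ ?_
  · rw [disjoint_singleton_right]
    exact hjA
  · intro z hz
    rcases mem_union.mp hz with hz | hz
    · exact hAB hz
    · rw [mem_singleton] at hz
      rw [hz]
      exact hjB
  · intro S hS hne
    have h1 := hcl S hS hne
    have h4 := card_pos.mpr hne
    have h2 : ∀ c ∈ S, (vs c \ (A ∪ {j})).card ≤ 3 := fun c _ =>
      (card_le_card sdiff_subset).trans (h3 c).le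
    by_cases hjN : j ∈ S.biUnion vs
    · obtain ⟨c₁, hc₁, hjc₁⟩ := mem_biUnion.mp hjN
      have hN : (S.biUnion vs \ (A ∪ {j})).card = (S.biUnion vs \ A).card - 1 := by
        rw [herase, card_erase_of_mem (mem_sdiff.mpr ⟨hjN, hjA⟩)]
      have hc₁card : (vs c₁ \ (A ∪ {j})).card = 2 := by
        rw [herase, card_erase_of_mem (mem_sdiff.mpr ⟨hjc₁, hjA⟩), hcard3 c₁ (hS hc₁) hjc₁]
      have hsum : ∑ c ∈ S, (vs c \ (A ∪ {j})).card ≤ 2 + (S.card - 1) * 3 := by
        rw [← add_sum_erase _ _ hc₁, hc₁card]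
        refine Nat.add_le_add_left ?_ _
        rw [← card_erase_of_mem hc₁]
        exact Finset.sum_le_card_nsmul _ _ _ (fun c hc => h2 c (mem_of_mem_erase hc))
      by_cases hone : S.card = 1
      · rw [card_eq_one] at hone
        obtain ⟨c₂, hc₂⟩ := hone
        have hcc : c₁ = c₂ := by
          rw [hc₂, mem_singleton] at hc₁
          exact hc₁
        subst hcc
        refine exists_unique_nbr (vs := vs) (A' := A ∪ {j}) (S := S) ?_
        rw [hc₂, sum_singleton, singleton_biUnion, hc₁card]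
        norm_num
      · exact exists_unique_nbr (vs := vs) (A' := A ∪ {j}) (S := S) (by omega)
    · have hN : (S.biUnion vs \ (A ∪ {j})).card = (S.biUnion vs \ A).card := by
        rw [herase, erase_eq_of_notMem]
        intro h
        exact hjN (mem_sdiff.mp h).1
      have hsum : ∑ c ∈ S, (vs c \ (A ∪ {j})).card ≤ S.card * 3 :=
        Finset.sum_le_card_nsmul _ _ _ h2
      exact exists_unique_nbr (vs := vs) (A' := A ∪ {j}) (S := S) (by omega)
  · intro c hc
    rw [herase]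
    by_cases hjc : j ∈ vs c
    · rw [card_erase_of_mem (mem_sdiff.mpr ⟨hjc, hjA⟩), hcard3 c hc hjc]
    · rw [erase_eq_of_notMem (fun h => hjc (mem_sdiff.mp h).1)]
      have h1 := hcl {c} (singleton_subset_iff.mpr hc) (singleton_nonempty c)
      rw [card_singleton, singleton_biUnion] at h1
      omega
  · intro c hcB hcS
    by_cases hcA : vs c ⊆ A
    · obtain ⟨i, hi, hl⟩ := hρ c hcA
      exact ⟨i, hi, mem_union_left _ (hcA hi), lit_congr (hAQ i (hcA hi)).symm hl⟩
    · have hk : ¬ ∀ k ∈ vs c, k ∈ A → ¬ Lit ng ρ c k := fun hk =>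
        hcS (mem_Open.mpr ⟨hcB, hcA, hk⟩)
      push Not at hk
      obtain ⟨k, hk, hkA, hl⟩ := hk
      exact ⟨k, hk, mem_union_left _ hkA, lit_congr (hAQ k hkA).symm hl⟩
  · rw [sum_singleton]
    simp only [hρQ, if_true]
    obtain ⟨k, hk⟩ := hodd
    by_cases hneg : a j < 0
    · simp only [hneg, decide_true, if_true]
      omega
    · simp only [hneg, decide_false]
      simp
      omega

/-- The step lemma. -/
theorem step_lemma [Fintype ι] {q : ℕ} {A : Finset V} {ρ : V → Bool}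
    (h3 : ∀ c, (vs c).card = 3) (hq : 2 ≤ q) (hA : Closed vs q A)
    (hρ : Valid vs ng ρ A) (a : V → ℤ) (hodd : Odd (∑ i ∈ Aᶜ, a i)) :
    ∃ j, ∀ B, Closed vs q B → A ⊆ B → j ∈ B → (inside vs B).card ≤ q →
      ∃ σ : V → Bool, (∀ i ∈ A, σ i = ρ i) ∧ Valid vs ng σ B ∧
        ∑ i, a i * pt B σ i < ∑ i, a i * pt A ρ i := by
  classical
  by_cases hex : ∃ c, Crit vs ng A ρ c ∧ Odd (∑ i ∈ vs c \ A, a i)
  · obtain ⟨c₀, hc₀, hodd₀⟩ := hex
    obtain ⟨x, y, hxy, hQ⟩ := card_eq_two.mp hc₀.1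
    refine ⟨x, fun B hB hAB hx hBq => ?_⟩
    rw [hQ, sum_pair hxy] at hodd₀
    exact step_pair h3 hA hρ a hc₀ hxy hQ hodd₀ hB hAB hx hBq (by omega)
  · push Not at hex
    set 𝒞 := (univ : Finset ι).filter (fun c => Crit vs ng A ρ c) with h𝒞
    set U := 𝒞.biUnion (fun c => vs c \ A) with hU
    have hUA : U ⊆ Aᶜ := by
      intro z hz
      obtain ⟨c, hc, hz⟩ := mem_biUnion.mp hz
      rw [mem_compl]
      exact (mem_sdiff.mp hz).2
    have hUsum : Even (∑ i ∈ U, a i) := by
      rw [hU, sum_biUnion]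
      · refine Finset.even_sum _ (fun c hc => ?_)
        have := hex c (mem_filter.mp hc).2
        rwa [Int.not_odd_iff_even] at this
      · intro c hc c' hc' hne
        exact Crit.disjoint hq hA (mem_filter.mp hc).2 (mem_filter.mp hc').2 hne
    have hrest : ∃ j ∈ Aᶜ \ U, Odd (a j) := by
      by_contra hcon
      push Not at hcon
      have h1 : Even (∑ i ∈ Aᶜ \ U, a i) := by
        refine Finset.even_sum _ (fun i hi => ?_)
        have := hcon i hi
        rwa [Int.not_odd_iff_even] at this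
      have h2 : ∑ i ∈ Aᶜ \ U, a i + ∑ i ∈ U, a i = ∑ i ∈ Aᶜ, a i := sum_sdiff hUA
      rw [← h2] at hodd
      exact (Int.not_even_iff_odd.mpr hodd) (h1.add hUsum)
    obtain ⟨j, hj, hoddj⟩ := hrest
    obtain ⟨hjA, hjU⟩ := mem_sdiff.mp hj
    rw [mem_compl] at hjA
    refine ⟨j, fun B _ hAB hjB hBq => ?_⟩
    refine step_single h3 hA hρ a hjA ?_ hoddj hAB hjB hBq
    intro c hc hjc
    exact hjU (mem_biUnion.mpr ⟨c, mem_filter.mpr ⟨mem_univ _, hc⟩,
      mem_sdiff.mpr ⟨hjc, hjA⟩⟩)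

end MP86d903
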